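import Mathlib.LinearAlgebra.Matrix.Charpoly.Basic
import Mathlib.Data.Int.ConditionallyCompleteOrder
import Mathlib.LinearAlgebra.Matrix.PosDef

/-!
Counting pairs of symmetric integer matrices `(A, A T)` with `A` unimodular, modulo unitriangular
changes of basis. Definitions and row statements.
-/

namespace Pool.Agent.MP_a43263_nt.UC

open Polynomial Matrix Finset

abbrev Mz (n : ℕ) := Matrix (Fin n) (Fin n) ℤ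

/-- `A` symmetric unimodular, `T` self-adjoint for `A`. -/
def Pair {n : ℕ} (A T : Mz n) : Prop := A.IsSymm ∧ IsUnit A.det ∧ (A * T).IsSymm

/-- Height at most `X` for a monic polynomial of degree `n`. -/
def Ht (n X : ℕ) (f : ℤ[X]) : Prop := ∀ k, 1 ≤ k → k ≤ n → |f.coeff (n - k)| ≤ (X : ℤ) ^ k

def Irr (f : ℤ[X]) : Prop := Irreducible (f.map (Int.castRingHom ℚ))

/-- Every common isotropic `g`-frame has a large determinant. -/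
def Cusp (g M : ℕ) (A T : Mz (2 * g + 1)) : Prop :=
  ∀ (y : Fin g → Fin (2 * g + 1) → ℤ) (z : Fin (2 * g + 1) → ℤ),
    LinearIndependent ℤ (Fin.cons z y : Fin (g + 1) → Fin (2 * g + 1) → ℤ) →
    (∀ i j, y i ⬝ᵥ A *ᵥ y j = 0) → (∀ i j, y i ⬝ᵥ (A * T) *ᵥ y j = 0) →
    (∀ i, y i ⬝ᵥ A *ᵥ z = 0) →
    (M : ℤ) ≤ |(Matrix.of fun i j : Fin g => y i ⬝ᵥ (A * T ^ (j.1 + 1)) *ᵥ z).det|

/-- Invariance under integral change of basis. -/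
def Inv {n : ℕ} (L : Mz n → Mz n → Prop) : Prop :=
  ∀ A T γ γ' : Mz n, γ * γ' = 1 → L A T → L (γᵀ * A * γ) (γ' * T * γ)

/-- Index pairs on or above the diagonal. -/
def up (n : ℕ) : Finset (Fin n × Fin n) := univ.filter fun x => x.1 ≤ x.2

/-- Index pairs strictly above the diagonal. -/
def sup (n : ℕ) : Finset (Fin n × Fin n) := univ.filter fun x => x.1 < x.2

/-- `L` has density at most `μ` in boxes with sides at least `N`. -/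
def Dens {n : ℕ} (L : Mz n → Mz n → Prop) (μ : ℝ) (N : ℕ) : Prop :=
  ∀ A : Mz n, A.IsSymm → IsUnit A.det → ∀ Y : Fin n → Fin n → ℕ, (∀ p q, N ≤ Y p q) →
    ∃ W : Finset (Mz n),
      (∀ T : Mz n, (A * T).IsSymm → L A T → (∀ p q, |(A * T) p q| ≤ (Y p q : ℤ)) → A * T ∈ W) ∧
      (W.card : ℝ) ≤ μ * ∏ x ∈ up n, (3 * (Y x.1 x.2 : ℝ))

/-- Dyadic box. -/
def Box {n : ℕ} (m : ℤ) (e : Fin n → ℤ) (A : Mz n) : Prop :=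
  ∀ p q, |(A p q : ℝ)| ≤ (2 : ℝ) ^ (m + e p + e q)

/-- Monotone antisymmetric exponent vectors. -/
def Ex {n : ℕ} (e : Fin n → ℤ) : Prop := Monotone e ∧ ∀ p, e (Fin.rev p) = - e p

/-- Consecutive steps at most `k`. -/
def Stp {n : ℕ} (k : ℕ) (e : Fin n → ℤ) : Prop :=
  ∀ p q : Fin n, q.1 = p.1 + 1 → e q - e p ≤ k

def Hq {n : ℕ} (H : Matrix (Fin n) (Fin n) ℝ) (x : Fin n → ℤ) : ℝ :=
  (fun i => (x i : ℝ)) ⬝ᵥ H *ᵥ fun i => (x i : ℝ)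

/-- Position `i < g` among `2g+1`. -/
def lo {g : ℕ} (i : Fin g) : Fin (2 * g + 1) := ⟨i.1, by omega⟩

/-- The exponent of (number of pairs in the box) / (number of unitriangular changes). -/
def Phi {n : ℕ} (k : ℕ) (e : Fin n → ℤ) : ℤ :=
  ∑ x ∈ up n, max ((k : ℤ) + e x.1 + e x.2) 0 + ∑ x ∈ up n, max (e x.1 + e x.2) 0
    - ∑ x ∈ sup n, (e x.2 - e x.1)

/-- The cusp: all `2 a_i > k`, where `a_i = - e (lo i)`. -/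
def Deep (g k : ℕ) (e : Fin (2 * g + 1) → ℤ) : Prop := ∀ i : Fin g, (k : ℤ) + 2 * e (lo i) < 0

def dim (g : ℕ) : ℕ := (2 * g + 1) * (g + 1)

def tri (g : ℕ) : ℕ := ∑ i : Fin g, (i.1 + 1)

/-- The local condition at the primes of `Q`. -/
def Loc {n : ℕ} (Q : Finset ℕ) (a : ℕ → ℤ) (h : ℕ → ℤ[X]) (A T : Mz n) : Prop :=
  ∀ q ∈ Q, (T.map (Int.castRingHom (ZMod q))).charpoly
      = (X - C (a q : ZMod q)) * (h q).map (Int.castRingHom (ZMod q)) ∧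
    ∃ (x : Fin n → ZMod q) (s : ZMod q), s ≠ 0 ∧
      T.map (Int.castRingHom (ZMod q)) *ᵥ x = (a q : ZMod q) • x ∧
      x ⬝ᵥ A.map (Int.castRingHom (ZMod q)) *ᵥ x = s ^ 2

/-- Hermite reduction. -/
def HERMStmt : Prop := ∀ n : ℕ, ∃ C : ℝ, 0 < C ∧ ∀ H : Matrix (Fin n) (Fin n) ℝ, H.PosDef →
  ∃ γ γ' : Mz n, γ * γ' = 1 ∧ Monotone (fun p => Hq H (γᵀ p)) ∧ ∏ p, Hq H (γᵀ p) ≤ C * H.det

/-- Majorant. -/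
def MAJStmt : Prop := ∀ (n X : ℕ) (A T : Mz n), Pair A T → Irr T.charpoly → Ht n X T.charpoly →
  ∃ H : Matrix (Fin n) (Fin n) ℝ, H.PosDef ∧ H.det = 1 ∧ ∀ (j : ℕ) (x y : Fin n → ℤ),
    ((x ⬝ᵥ (A * T ^ j) *ᵥ y : ℤ) : ℝ) ^ 2 ≤ (2 * X : ℝ) ^ (2 * j) * (Hq H x * Hq H y)

/-- Dyadic exponents. -/
def DYStmt : Prop := ∀ (n : ℕ) (C : ℝ), ∃ κ : ℕ, ∀ (A : Mz n) (s : Fin n → ℝ), A.det ≠ 0 →
  (∀ p, 0 < s p) → Monotone s → ∏ p, s p ≤ C → (∀ p q, |(A p q : ℝ)| ≤ s p * s q) →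
  ∃ e : Fin n → ℤ, Ex e ∧ ∀ p, s p ≤ (2 : ℝ) ^ ((κ : ℤ) + e p)

/-- Reduced basis. -/
def REDStmt : Prop := ∀ n : ℕ, ∃ κ : ℕ, ∀ (X k : ℕ) (A T : Mz n), Pair A T → Irr T.charpoly →
  Ht n X T.charpoly → 2 * X ≤ 2 ^ k → ∃ (γ γ' : Mz n) (e : Fin n → ℤ), γ * γ' = 1 ∧ Ex e ∧
    ∀ j : ℕ, Box ((κ : ℤ) + j * k) e (γᵀ * A * γ * (γ' * T * γ) ^ j)

/-- Change of basis keeps the data. -/
def CHGStmt : Prop :=
  (∀ (n : ℕ) (A T γ γ' : Mz n), γ * γ' = 1 → Pair A T →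
    Pair (γᵀ * A * γ) (γ' * T * γ) ∧ (γ' * T * γ).charpoly = T.charpoly) ∧
  (∀ g M : ℕ, Inv (Cusp g M)) ∧
  ∀ (n : ℕ) (Q : Finset ℕ) (a : ℕ → ℤ) (h : ℕ → ℤ[X]), Inv (n := n) (Loc Q a h)

/-- Division by the unitriangular matrices. -/
def UNIStmt : Prop := ∀ n : ℕ, ∃ c : ℕ, ∀ (m m' : ℤ) (e : Fin n → ℤ) (L : Mz n → Mz n → Prop),
  Inv L → Monotone e → ∀ (S : Finset ℤ[X]) (W : Finset (Mz n × Mz n)),
  (∀ f ∈ S, Irr f ∧ ∃ A T : Mz n, Pair A T ∧ T.charpoly = f ∧ L A T ∧ Box m e A ∧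
    Box m' e (A * T)) →
  (∀ A T : Mz n, Pair A T → L A T → Box (m + c) e A → Box (m' + c) e (A * T) → (A, A * T) ∈ W) →
  (S.card : ℝ) * (2 : ℝ) ^ (∑ x ∈ sup n, (e x.2 - e x.1)) ≤ W.card

/-- Symmetric matrices in a box. -/
def BOXStmt : Prop := ∀ (n : ℕ) (m : ℤ) (e : Fin n → ℤ), ∃ W : Finset (Mz n),
  (∀ A : Mz n, A.IsSymm → Box m e A → A ∈ W) ∧
  (W.card : ℝ) ≤ 3 ^ (up n).card * (2 : ℝ) ^ (∑ x ∈ up n, max (m + e x.1 + e x.2) 0)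

/-- Irreducibility bounds the steps. -/
def IRRStmt : Prop := ∀ (n k : ℕ) (A T : Mz n) (e : Fin n → ℤ), Pair A T → Irr T.charpoly →
  Ex e → Box k e A → Box k e (A * T) → Stp k e

/-- The two exponent inequalities. -/
def EXPStmt : Prop := ∀ (g k : ℕ) (e : Fin (2 * g + 1) → ℤ), Ex e → Stp k e →
  (¬ Deep g k e → Phi k e ≤ (k * dim g : ℕ) - ∑ i : Fin g, min (- e (lo i)) k) ∧
  (Deep g k e → Phi k e ≤ (k * dim g : ℕ) - ((k * tri g : ℕ) + ∑ i : Fin g, e (lo i)))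

/-- Sums over the exponent vectors. -/
def SUMStmt : Prop := ∀ g : ℕ, ∃ C : ℝ, 0 < C ∧ ∀ (k : ℕ) (E : Finset (Fin (2 * g + 1) → ℤ)),
  (∀ e ∈ E, Ex e ∧ Stp k e) →
  (∑ e ∈ E, (2 : ℝ) ^ (- ∑ i : Fin g, min (- e (lo i)) (k : ℤ)) ≤ C) ∧
  (∀ A0 : ℕ, (∀ e ∈ E, (A0 : ℤ) < - e 0) →
    ∑ e ∈ E, (2 : ℝ) ^ (- ∑ i : Fin g, min (- e (lo i)) (k : ℤ))
      ≤ C * (1 / 2 ^ A0 + (k : ℝ) / 2 ^ k)) ∧
  ∀ m : ℕ, (∀ e ∈ E, (2 * m : ℤ) ≤ (k * tri g : ℕ) + ∑ i : Fin g, e (lo i)) →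
    ∑ e ∈ E, (2 : ℝ) ^ (- (((k * tri g : ℕ) : ℤ) + ∑ i : Fin g, e (lo i))) ≤ C / 2 ^ m

/-- The cusp determinant. -/
def CUSPStmt : Prop := ∀ (g M κ k : ℕ) (A T : Mz (2 * g + 1)) (e : Fin (2 * g + 1) → ℤ),
  Ex e → κ ≤ k → Deep g (κ + k) e → (∀ j : ℕ, Box ((κ : ℤ) + j * k) e (A * T ^ j)) →
  Cusp g M A T →
  (M : ℝ) ≤ g.factorial * (2 : ℝ) ^ (((g * κ + k * tri g : ℕ) : ℤ) + ∑ i : Fin g, e (lo i))

/-- Boxes with congruence conditions. -/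
def CRTStmt : Prop := ∀ (n : ℕ) (Q : Finset ℕ), (∀ q ∈ Q, q.Prime) →
  ∀ (S : ∀ q : ℕ, Finset (Matrix (Fin n) (Fin n) (ZMod q))) (Y : Fin n → Fin n → ℕ),
  (∀ p q, ∏ r ∈ Q, r ≤ Y p q) → ∃ W : Finset (Mz n),
    (∀ B : Mz n, B.IsSymm → (∀ p q, |B p q| ≤ (Y p q : ℤ)) →
      (∀ q ∈ Q, B.map (Int.castRingHom (ZMod q)) ∈ S q) → B ∈ W) ∧
    (W.card : ℝ) ≤ (∏ q ∈ Q, ((S q).card : ℝ) / (q : ℝ) ^ (up n).card) *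
      ∏ x ∈ up n, (3 * (Y x.1 x.2 : ℝ))

/-- The count over a finite field. -/
def FCStmt : Prop := ∀ g : ℕ, 1 ≤ g → ∃ q0 : ℕ, ∀ (F : Type) [Field F] [Fintype F] [DecidableEq F],
  q0 ≤ Fintype.card F → (2 : F) ≠ 0 → ∀ A : Matrix (Fin (2 * g + 1)) (Fin (2 * g + 1)) F,
  A.IsSymm → A.det ≠ 0 → ∀ (a : F) (h : F[X]), Irreducible h → h.natDegree = 2 * g →
  4 * Nat.card {T : Matrix (Fin (2 * g + 1)) (Fin (2 * g + 1)) F // (A * T).IsSymm ∧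
      T.charpoly = (X - C a) * h ∧ ∃ (x : Fin (2 * g + 1) → F) (s : F), s ≠ 0 ∧ T *ᵥ x = a • x ∧
        x ⬝ᵥ A *ᵥ x = s ^ 2} ≤ 3 * Fintype.card F ^ (g * (2 * g + 1))

/-- Density of the local condition. -/
def DENStmt : Prop := ∀ g : ℕ, 1 ≤ g → ∃ q0 : ℕ, ∀ (Q : Finset ℕ) (a : ℕ → ℤ) (h : ℕ → ℤ[X]),
  (∀ q ∈ Q, q.Prime ∧ q0 ≤ q ∧ Irreducible ((h q).map (Int.castRingHom (ZMod q))) ∧
    ((h q).map (Int.castRingHom (ZMod q))).natDegree = 2 * g) →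
  Dens (n := 2 * g + 1) (Loc Q a h) ((3 / 4) ^ Q.card / (∏ q ∈ Q, (q : ℝ)) ^ (2 * g + 1))
    (∏ q ∈ Q, q)

/-- The count for an abstract invariant condition. -/
def ABSStmt : Prop := ∀ g : ℕ, 1 ≤ g → ∃ C : ℝ, 0 < C ∧ ∀ ε : ℝ, 0 < ε → ∃ M : ℕ,
  ∀ (L : Mz (2 * g + 1) → Mz (2 * g + 1) → Prop) (μ : ℝ) (N : ℕ), Inv L → 0 ≤ μ → Dens L μ N →
  ∃ X0 : ℕ, ∀ X : ℕ, X0 ≤ X → ∀ S : Finset ℤ[X],
    (∀ f ∈ S, Ht (2 * g + 1) X f ∧ Irr f ∧ ∃ A T : Mz (2 * g + 1), Pair A T ∧ T.charpoly = f ∧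
      L A T ∧ Cusp g M A T) →
    (S.card : ℝ) ≤ (C * μ + ε) * (X : ℝ) ^ dim g

/-- The count. -/
def COUNTStmt : Prop := ∀ g : ℕ, 1 ≤ g → ∃ (C : ℝ) (q0 : ℕ), 0 < C ∧ ∀ ε : ℝ, 0 < ε → ∃ M : ℕ,
  ∀ (Q : Finset ℕ) (a : ℕ → ℤ) (h : ℕ → ℤ[X]),
  (∀ q ∈ Q, q.Prime ∧ q0 ≤ q ∧ Irreducible ((h q).map (Int.castRingHom (ZMod q))) ∧
    ((h q).map (Int.castRingHom (ZMod q))).natDegree = 2 * g) →
  ∃ X0 : ℕ, ∀ X : ℕ, X0 ≤ X → ∀ S : Finset ℤ[X],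
    (∀ f ∈ S, Ht (2 * g + 1) X f ∧ Irr f ∧ ∃ A T : Mz (2 * g + 1), Pair A T ∧ T.charpoly = f ∧
      Loc Q a h A T ∧ Cusp g M A T) →
    (S.card : ℝ) ≤ (C * ((3 / 4) ^ Q.card / (∏ q ∈ Q, (q : ℝ)) ^ (2 * g + 1)) + ε) *
      (X : ℝ) ^ dim g

end Pool.Agent.MP_a43263_nt.UC
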