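import Mathlib.Topology.Sheaves.Presheaf
import Mathlib.Data.Int.Star
import Mathlib.Algebra.Order.Star.Real
import Mathlib.RingTheory.WittVector.IsPoly
import Mathlib.Tactic
import Pool.Agent.MP_a43263_nt.UC.Spec

-- ======== part 0: formerly Pool.Agent.MP_a43263_nt.UC.Abs
section MrgPart0

namespace Pool.Agent.MP_a43263_nt.UC

open Polynomial Matrix Finset

namespace Abs

lemma card_up (g : ℕ) : (up (2 * g + 1)).card = dim g := by
  have h : ∀ n : ℕ, 2 * (up n).card = n * (n + 1) := by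
    intro n
    have h1 : (up n).card = ∑ q : Fin n, (q.1 + 1) := by
      rw [up, card_filter, Fintype.sum_prod_type_right]
      refine sum_congr rfl fun q _ => ?_
      rw [← card_filter]
      have : (univ.filter fun p : Fin n => p ≤ q) = Iic q := by ext; simp
      rw [this, Fin.card_Iic]
    rw [h1, Fin.sum_univ_eq_sum_range (fun i => i + 1) n]
    induction n with
    | zero => simp
    | succ n ih =>
      clear h1 ih
      induction n with
      | zero => simp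
      | succ n ih => rw [sum_range_succ]; linarith
  have := h (2 * g + 1)
  unfold dim
  nlinarith

lemma box_mono {n : ℕ} {m m' : ℤ} {e : Fin n → ℤ} {A : Mz n} (h : Box m e A) (hm : m ≤ m') :
    Box m' e A := fun p q =>
  (h p q).trans (zpow_le_zpow_right₀ (by norm_num) (by omega))

lemma sum_shift {n : ℕ} (κ : ℕ) (e : Fin n → ℤ) :
    ∑ x ∈ up n, max ((κ : ℤ) + e x.1 + e x.2) 0
      ≤ (κ * (up n).card : ℕ) + ∑ x ∈ up n, max (e x.1 + e x.2) 0 := by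
  have : ((κ * (up n).card : ℕ) : ℤ) = ∑ _x ∈ up n, (κ : ℤ) := by simp [mul_comm]
  rw [this, ← sum_add_distrib]
  refine sum_le_sum fun x _ => ?_
  omega

/-- From a bound on the number of pairs to a bound on the number of polynomials. -/
lemma fin_bound {n : ℕ} (κ k : ℕ) (e : Fin n → ℤ) (ν s w : ℝ) (hν : 0 ≤ ν)
    (h1 : s * (2 : ℝ) ^ (∑ x ∈ sup n, (e x.2 - e x.1)) ≤ w)
    (h2 : w ≤ (3 ^ (up n).card * (2 : ℝ) ^ (∑ x ∈ up n, max ((κ : ℤ) + e x.1 + e x.2) 0)) *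
      (ν * (3 ^ (up n).card * (2 : ℝ) ^ (∑ x ∈ up n, max ((k : ℤ) + e x.1 + e x.2) 0)))) :
    s ≤ ν * (9 ^ (up n).card * 2 ^ (κ * (up n).card)) * (2 : ℝ) ^ Phi k e := by
  have hp : (0 : ℝ) < (2 : ℝ) ^ (∑ x ∈ sup n, (e x.2 - e x.1)) := by positivity
  have h3 : (2 : ℝ) ^ (∑ x ∈ up n, max ((κ : ℤ) + e x.1 + e x.2) 0)
      ≤ 2 ^ (κ * (up n).card) * (2 : ℝ) ^ (∑ x ∈ up n, max (e x.1 + e x.2) 0) := by
    rw [← zpow_natCast, ← zpow_add₀ (by norm_num)]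
    exact zpow_le_zpow_right₀ (by norm_num) (sum_shift κ e)
  refine le_of_mul_le_mul_right (h1.trans (h2.trans ?_)) hp
  have h9 : (9 : ℝ) ^ (up n).card = 3 ^ (up n).card * 3 ^ (up n).card := by
    rw [← mul_pow]; norm_num
  have hPhi : (2 : ℝ) ^ Phi k e * (2 : ℝ) ^ (∑ x ∈ sup n, (e x.2 - e x.1))
      = (2 : ℝ) ^ (∑ x ∈ up n, max ((k : ℤ) + e x.1 + e x.2) 0) *
        (2 : ℝ) ^ (∑ x ∈ up n, max (e x.1 + e x.2) 0) := by
    rw [← zpow_add₀ (by norm_num), ← zpow_add₀ (by norm_num), Phi]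
    congr 1; ring
  rw [mul_assoc _ ((2 : ℝ) ^ Phi k e), hPhi, h9]
  calc _ ≤ (3 ^ (up n).card * (2 ^ (κ * (up n).card) *
          (2 : ℝ) ^ (∑ x ∈ up n, max (e x.1 + e x.2) 0))) *
        (ν * (3 ^ (up n).card * (2 : ℝ) ^ (∑ x ∈ up n, max ((k : ℤ) + e x.1 + e x.2) 0))) := by
        gcongr
    _ = _ := by ring

/-- All pairs in the two boxes. -/
lemma pairs_gen (hB : BOXStmt) {n : ℕ} (m m' : ℤ) (e : Fin n → ℤ) :
    ∃ W : Finset (Mz n × Mz n),
      (∀ A T : Mz n, Pair A T → Box m e A → Box m' e (A * T) → (A, A * T) ∈ W) ∧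
      (W.card : ℝ) ≤ (3 ^ (up n).card * (2 : ℝ) ^ (∑ x ∈ up n, max (m + e x.1 + e x.2) 0)) *
        (1 * (3 ^ (up n).card * (2 : ℝ) ^ (∑ x ∈ up n, max (m' + e x.1 + e x.2) 0))) := by
  obtain ⟨WA, hA, hA'⟩ := hB n m e
  obtain ⟨WB, hBm, hB'⟩ := hB n m' e
  refine ⟨WA ×ˢ WB, fun A T hP h1 h2 => mem_product.2 ⟨hA A hP.1 h1, hBm _ hP.2.2 h2⟩, ?_⟩
  rw [card_product, Nat.cast_mul, one_mul]
  gcongr

/-- Pairs with the local condition, all sides being long. -/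
lemma pairs_body (hB : BOXStmt) {n : ℕ} (L : Mz n → Mz n → Prop) (μ : ℝ) (N : ℕ) (hμ : 0 ≤ μ)
    (hD : Dens L μ N) (m m' : ℤ) (e : Fin n → ℤ) (hN : ∀ p q, (N : ℤ) ≤ m' + e p + e q) :
    ∃ W : Finset (Mz n × Mz n),
      (∀ A T : Mz n, Pair A T → L A T → Box m e A → Box m' e (A * T) → (A, A * T) ∈ W) ∧
      (W.card : ℝ) ≤ (3 ^ (up n).card * (2 : ℝ) ^ (∑ x ∈ up n, max (m + e x.1 + e x.2) 0)) *
        (μ * (3 ^ (up n).card * (2 : ℝ) ^ (∑ x ∈ up n, max (m' + e x.1 + e x.2) 0))) := by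
  classical
  obtain ⟨WA, hA, hA'⟩ := hB n m e
  set Y : Fin n → Fin n → ℕ := fun p q => 2 ^ (m' + e p + e q).toNat with hY
  have hYr : ∀ p q, (Y p q : ℝ) = (2 : ℝ) ^ (m' + e p + e q) := by
    intro p q
    have h0 : (0 : ℤ) ≤ m' + e p + e q := le_trans (Int.natCast_nonneg N) (hN p q)
    rw [hY]
    push_cast
    rw [← zpow_natCast, Int.toNat_of_nonneg h0]
  have hYN : ∀ p q, N ≤ Y p q := by
    intro p q
    have h1 : N ≤ (m' + e p + e q).toNat := by have := hN p q; omega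
    exact (Nat.lt_two_pow_self.le).trans (Nat.pow_le_pow_right (by norm_num) h1)
  have hprod : ∏ x ∈ up n, (3 * (Y x.1 x.2 : ℝ))
      = 3 ^ (up n).card * (2 : ℝ) ^ (∑ x ∈ up n, max (m' + e x.1 + e x.2) 0) := by
    rw [prod_mul_distrib, prod_const]
    congr 1
    have hz : ∀ (s : Finset (Fin n × Fin n)) (t : Fin n × Fin n → ℤ),
        (2 : ℝ) ^ (∑ x ∈ s, t x) = ∏ x ∈ s, (2 : ℝ) ^ t x := by
      intro s t
      induction s using Finset.induction_on with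
      | empty => simp
      | insert a s ha ih => rw [sum_insert ha, prod_insert ha, zpow_add₀ (by norm_num), ih]
    rw [hz]
    refine prod_congr rfl fun x _ => ?_
    rw [hYr, max_eq_left (le_trans (Int.natCast_nonneg N) (hN _ _))]
  have hex : ∀ A : Mz n, ∃ W : Finset (Mz n), (A.IsSymm → IsUnit A.det →
      ∀ T : Mz n, (A * T).IsSymm → L A T → (∀ p q, |(A * T) p q| ≤ (Y p q : ℤ)) → A * T ∈ W) ∧
      (W.card : ℝ) ≤ μ * ∏ x ∈ up n, (3 * (Y x.1 x.2 : ℝ)) := by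
    intro A
    by_cases h : A.IsSymm ∧ IsUnit A.det
    · obtain ⟨W, h1, h2⟩ := hD A h.1 h.2 Y hYN
      exact ⟨W, fun _ _ => h1, h2⟩
    · refine ⟨∅, fun h1 h2 => absurd ⟨h1, h2⟩ h, ?_⟩
      simp only [card_empty, Nat.cast_zero]
      positivity
  choose WB hWB hWB' using hex
  refine ⟨WA.biUnion fun A => (WB A).image fun B => (A, B), fun A T hP hL h1 h2 => ?_, ?_⟩
  · refine mem_biUnion.2 ⟨A, hA A hP.1 h1, mem_image.2 ⟨A * T, ?_, rfl⟩⟩
    refine hWB A hP.1 hP.2.1 T hP.2.2 hL fun p q => ?_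
    have := h2 p q
    rw [← hYr] at this
    exact_mod_cast this
  · calc ((WA.biUnion fun A => (WB A).image fun B => (A, B)).card : ℝ)
        ≤ ((∑ A ∈ WA, ((WB A).image fun B => (A, B)).card : ℕ) : ℝ) := by
          exact_mod_cast card_biUnion_le
      _ ≤ ∑ _A ∈ WA, μ * ∏ x ∈ up n, (3 * (Y x.1 x.2 : ℝ)) := by
          push_cast
          refine sum_le_sum fun A _ => le_trans ?_ (hWB' A)
          exact_mod_cast card_image_le
      _ = WA.card * (μ * ∏ x ∈ up n, (3 * (Y x.1 x.2 : ℝ))) := by simp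
      _ ≤ _ := by
          rw [hprod]
          gcongr

lemma small (k m : ℕ) (h : 2 * m + 1 ≤ k) : (k : ℝ) / 2 ^ k ≤ 1 / 2 ^ m := by
  obtain ⟨j, rfl⟩ : ∃ j, k = (j + 1) + m := ⟨k - m - 1, by omega⟩
  have h1 : j + 1 ≤ 2 ^ j := Nat.lt_two_pow_self
  have h2 : j + 1 + m ≤ 2 ^ (j + 1) := by rw [pow_succ]; omega
  have h3 : ((j + 1 + m : ℕ) : ℝ) ≤ 2 ^ (j + 1) := by exact_mod_cast h2
  rw [div_le_div_iff₀ (by positivity) (by positivity), one_mul, pow_add (2 : ℝ) (j + 1) m]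
  gcongr

end Abs

open Abs in
theorem abs (hR : REDStmt) (hC : CHGStmt) (hU : UNIStmt) (hB : BOXStmt) (hI : IRRStmt)
    (hE : EXPStmt) (hS : SUMStmt) (hK : CUSPStmt) : ABSStmt := by
  classical
  intro g hg
  obtain ⟨κ, hκ⟩ := hR (2 * g + 1)
  obtain ⟨c, hc⟩ := hU (2 * g + 1)
  obtain ⟨C1, hC1, hS⟩ := hS g
  set K0 : ℝ := 9 ^ dim g * 2 ^ ((κ + c) * dim g) with hK0
  have hK0p : 0 < K0 := by positivity
  set K : ℝ := K0 * C1 * (4 * 2 ^ (κ + c)) ^ dim g with hKdef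
  have hKp : 0 < K := by positivity
  refine ⟨K, hKp, fun ε hε => ?_⟩
  obtain ⟨m, hm⟩ : ∃ m : ℕ, 3 * K / ε < 2 ^ m := pow_unbounded_of_one_lt _ (by norm_num)
  refine ⟨g.factorial * 2 ^ (g * κ + 2 * m), fun L μ N hL hμ hD => ?_⟩
  refine ⟨2 ^ (κ + 2 * m + 1 + N), fun X hX S hSf => ?_⟩
  set M : ℕ := g.factorial * 2 ^ (g * κ + 2 * m) with hM
  have hX1 : 1 ≤ X := le_trans Nat.one_le_two_pow hX
  set k : ℕ := Nat.clog 2 (2 * X) with hk
  have hk1 : 2 * X ≤ 2 ^ k := Nat.le_pow_clog (by norm_num) _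
  have hk2 : 2 ^ k ≤ 4 * X := by
    have h1 := Nat.pow_pred_clog_lt_self (b := 2) (by norm_num) (x := 2 * X) (by omega)
    have h2 : 0 < k := Nat.clog_pos (by norm_num) (by omega)
    obtain ⟨j, hj⟩ : ∃ j, k = j + 1 := ⟨k - 1, by omega⟩
    rw [← hk, hj, Nat.pred_succ] at h1
    rw [hj, pow_succ]; omega
  have hk3 : κ + 2 * m + 1 + N ≤ k := by
    have : 2 ^ (κ + 2 * m + 1 + N) ≤ 2 ^ k := by omega
    exact (Nat.pow_le_pow_iff_right (by norm_num)).1 this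
  set k' : ℕ := κ + c + k with hk'
  -- reduced representatives
  have hrep : ∀ f : ℤ[X], ∃ e : Fin (2 * g + 1) → ℤ, f ∈ S → Ex e ∧ Irr f ∧
      ∃ A T : Mz (2 * g + 1), Pair A T ∧ T.charpoly = f ∧ L A T ∧ Cusp g M A T ∧
        ∀ j : ℕ, Box ((κ : ℤ) + j * k) e (A * T ^ j) := by
    intro f
    by_cases hf : f ∈ S
    · obtain ⟨h1, h2, A, T, hP, hT, hLA, hCu⟩ := hSf f hf
      obtain ⟨γ, γ', e, hγ, he, hbox⟩ := hκ X k A T hP (hT ▸ h2) (hT ▸ h1) hk1
      obtain ⟨hP', hT'⟩ := hC.1 _ A T γ γ' hγ hP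
      exact ⟨e, fun _ => ⟨he, h2, _, _, hP', hT'.trans hT, hL A T γ γ' hγ hLA,
        hC.2.1 g M A T γ γ' hγ hCu, hbox⟩⟩
    · exact ⟨0, fun h => absurd h hf⟩
  choose ef hef using hrep
  have hbox01 : ∀ {e : Fin (2 * g + 1) → ℤ} {A T : Mz (2 * g + 1)},
      (∀ j : ℕ, Box ((κ : ℤ) + j * k) e (A * T ^ j)) →
      Box κ e A ∧ Box ((κ : ℤ) + k) e (A * T) := by
    intro e A T h
    have h0 := h 0
    have h1 := h 1
    simp only [Nat.cast_zero, zero_mul, add_zero, pow_zero, Matrix.mul_one] at h0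
    simp only [Nat.cast_one, one_mul, pow_one] at h1
    exact ⟨h0, h1⟩
  set E := S.image ef with hEdef
  have hE1 : ∀ e ∈ E, Ex e ∧ Stp k' e := by
    intro e he
    obtain ⟨f, hf, rfl⟩ := mem_image.1 he
    obtain ⟨h1, h2, A, T, hP, hT, -, -, hb⟩ := hef f hf
    obtain ⟨b0, b1⟩ := hbox01 hb
    exact ⟨h1, hI _ k' A T _ hP (hT ▸ h2) h1 (box_mono b0 (by rw [hk']; push_cast; omega))
      (box_mono b1 (by rw [hk']; push_cast; omega))⟩
  have hE2 : ∀ e ∈ E, Deep g k' e →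
      (2 * m : ℤ) ≤ (k' * tri g : ℕ) + ∑ i : Fin g, e (lo i) := by
    intro e he hd
    obtain ⟨f, hf, rfl⟩ := mem_image.1 he
    obtain ⟨h1, h2, A, T, hP, hT, -, hCu, hb⟩ := hef f hf
    have hd' : Deep g (κ + k) (ef f) := fun i => by
      have := hd i
      rw [hk'] at this
      push_cast at this ⊢
      omega
    have h3 := hK g M κ k A T _ h1 (by omega) hd' hb hCu
    rw [hM] at h3
    push_cast at h3
    have hgp : (0 : ℝ) < g.factorial := by positivity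
    have h4 := le_of_mul_le_mul_left h3 hgp
    rw [← zpow_natCast, zpow_le_zpow_iff_right₀ (by norm_num)] at h4
    have h5 : k * tri g ≤ k' * tri g := Nat.mul_le_mul_right _ (by omega)
    have h6 : ((k * tri g : ℕ) : ℤ) ≤ ((k' * tri g : ℕ) : ℤ) := by exact_mod_cast h5
    push_cast at h4 h6 ⊢
    omega
  -- the fibres
  have hfib : ∀ e ∈ E, ∀ f ∈ S.filter (fun f => ef f = e), Irr f ∧ ∃ A T : Mz (2 * g + 1),
      Pair A T ∧ T.charpoly = f ∧ L A T ∧ Box κ e A ∧ Box ((κ : ℤ) + k) e (A * T) := by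
    intro e _ f hf
    obtain ⟨hf', he⟩ := mem_filter.1 hf
    obtain ⟨-, h2, A, T, hP, hT, hLA, -, hb⟩ := hef f hf'
    rw [he] at hb
    exact ⟨h2, A, T, hP, hT, hLA, (hbox01 hb).1, (hbox01 hb).2⟩
  have e1 : ((κ + c : ℕ) : ℤ) = (κ : ℤ) + c := by push_cast; ring
  have e2 : ((k' : ℕ) : ℤ) = (κ : ℤ) + k + c := by rw [hk']; push_cast; ring
  have hgen : ∀ e ∈ E, ((S.filter fun f => ef f = e).card : ℝ) ≤ K0 * (2 : ℝ) ^ Phi k' e := by
    intro e he
    obtain ⟨W, hW, hW'⟩ := pairs_gen hB ((κ + c : ℕ) : ℤ) (k' : ℤ) e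
    have h1 := hc κ ((κ : ℤ) + k) e L hL (hE1 e he).1.1 _ W (hfib e he)
      (fun A T hP _ b0 b1 => hW A T hP (e1 ▸ b0) (e2 ▸ b1))
    have := fin_bound (κ + c) k' e 1 _ _ zero_le_one h1 hW'
    rwa [one_mul, card_up] at this
  have hbody : ∀ e ∈ E, - e 0 ≤ m →
      ((S.filter fun f => ef f = e).card : ℝ) ≤ μ * K0 * (2 : ℝ) ^ Phi k' e := by
    intro e he h0
    have hmono := (hE1 e he).1.1
    obtain ⟨W, hW, hW'⟩ := pairs_body hB L μ N hμ hD ((κ + c : ℕ) : ℤ) (k' : ℤ) e (fun p q => by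
      have h1 : e 0 ≤ e p := hmono (Fin.zero_le p)
      have h2 : e 0 ≤ e q := hmono (Fin.zero_le q)
      omega)
    have h1 := hc κ ((κ : ℤ) + k) e L hL hmono _ W (hfib e he)
      (fun A T hP hLA b0 b1 => hW A T hP hLA (e1 ▸ b0) (e2 ▸ b1))
    have := fin_bound (κ + c) k' e μ _ _ hμ h1 hW'
    rwa [card_up] at this
  set P : ℝ := 2 ^ (k' * dim g) with hP
  have hPp : 0 < P := by positivity
  have hnd : ∀ e ∈ E, ¬ Deep g k' e → (2 : ℝ) ^ Phi k' e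
      ≤ P * (2 : ℝ) ^ (- ∑ i : Fin g, min (- e (lo i)) (k' : ℤ)) := by
    intro e he hd
    rw [hP, ← zpow_natCast, ← zpow_add₀ (by norm_num), ← sub_eq_add_neg]
    exact zpow_le_zpow_right₀ (by norm_num) ((hE g k' e (hE1 e he).1 (hE1 e he).2).1 hd)
  have hdp : ∀ e ∈ E, Deep g k' e → (2 : ℝ) ^ Phi k' e
      ≤ P * (2 : ℝ) ^ (- (((k' * tri g : ℕ) : ℤ) + ∑ i : Fin g, e (lo i))) := by
    intro e he hd
    rw [hP, ← zpow_natCast, ← zpow_add₀ (by norm_num), ← sub_eq_add_neg]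
    exact zpow_le_zpow_right₀ (by norm_num) ((hE g k' e (hE1 e he).1 (hE1 e he).2).2 hd)
  set w : (Fin (2 * g + 1) → ℤ) → ℝ := fun e => ((S.filter fun f => ef f = e).card : ℝ) with hw
  have htot : (S.card : ℝ) = ∑ e ∈ E, w e := by
    rw [card_eq_sum_card_image ef S]; push_cast; rfl
  have s1 : ∑ e ∈ E.filter (fun e => Deep g k' e), w e ≤ K0 * P * (C1 / 2 ^ m) := by
    have := (hS k' (E.filter fun e => Deep g k' e)
      (fun e he => hE1 e (mem_filter.1 he).1)).2.2 m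
      (fun e he => hE2 e (mem_filter.1 he).1 (mem_filter.1 he).2)
    refine le_trans ?_ (mul_le_mul_of_nonneg_left this (by positivity))
    rw [mul_sum]
    refine sum_le_sum fun e he => ?_
    obtain ⟨he, hd⟩ := mem_filter.1 he
    rw [mul_assoc]
    exact (hgen e he).trans (mul_le_mul_of_nonneg_left (hdp e he hd) hK0p.le)
  have s2 : ∑ e ∈ (E.filter (fun e => ¬ Deep g k' e)).filter (fun e => (m : ℤ) < - e 0), w e
      ≤ K0 * P * (C1 * (2 / 2 ^ m)) := by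
    have := (hS k' ((E.filter (fun e => ¬ Deep g k' e)).filter (fun e => (m : ℤ) < - e 0))
      (fun e he => hE1 e (mem_filter.1 (mem_filter.1 he).1).1)).2.1 m
      (fun e he => (mem_filter.1 he).2)
    have h2 : C1 * (1 / 2 ^ m + (k' : ℝ) / 2 ^ k') ≤ C1 * (2 / 2 ^ m) := by
      have := small k' m (by omega)
      have h3 : (2 : ℝ) / 2 ^ m = 1 / 2 ^ m + 1 / 2 ^ m := by ring
      rw [h3]; gcongr
    refine le_trans ?_ (mul_le_mul_of_nonneg_left (this.trans h2) (by positivity))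
    rw [mul_sum]
    refine sum_le_sum fun e he => ?_
    obtain ⟨he, hd⟩ := mem_filter.1 (mem_filter.1 he).1
    rw [mul_assoc]
    exact (hgen e he).trans (mul_le_mul_of_nonneg_left (hnd e he hd) hK0p.le)
  have s3 : ∑ e ∈ (E.filter (fun e => ¬ Deep g k' e)).filter (fun e => ¬ (m : ℤ) < - e 0), w e
      ≤ μ * K0 * P * C1 := by
    have := (hS k' ((E.filter (fun e => ¬ Deep g k' e)).filter (fun e => ¬ (m : ℤ) < - e 0))
      (fun e he => hE1 e (mem_filter.1 (mem_filter.1 he).1).1)).1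
    refine le_trans ?_ (mul_le_mul_of_nonneg_left this (by positivity))
    rw [mul_sum]
    refine sum_le_sum fun e he => ?_
    obtain ⟨he', h0⟩ := mem_filter.1 he
    obtain ⟨he, hd⟩ := mem_filter.1 he'
    rw [mul_assoc (μ * K0)]
    exact (hbody e he (not_lt.1 h0)).trans
      (mul_le_mul_of_nonneg_left (hnd e he hd) (by positivity))
  have hsum : (S.card : ℝ) ≤ K0 * C1 * P * (μ + 3 / 2 ^ m) := by
    rw [htot, ← sum_filter_add_sum_filter_not E (fun e => Deep g k' e),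
      ← sum_filter_add_sum_filter_not (E.filter fun e => ¬ Deep g k' e)
        (fun e => (m : ℤ) < - e 0)]
    refine (add_le_add s1 (add_le_add s2 s3)).trans (le_of_eq ?_)
    ring
  have hPX : P ≤ (4 * 2 ^ (κ + c)) ^ dim g * (X : ℝ) ^ dim g := by
    rw [hP, pow_mul, ← mul_pow]
    have h1 : ((2 : ℝ) ^ k) ≤ 4 * X := by exact_mod_cast hk2
    have h2 : (2 : ℝ) ^ k' ≤ 4 * 2 ^ (κ + c) * X := by
      rw [hk', pow_add (2 : ℝ) (κ + c) k]
      calc (2 : ℝ) ^ (κ + c) * 2 ^ k ≤ 2 ^ (κ + c) * (4 * X) := by gcongr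
        _ = _ := by ring
    gcongr
  have hε' : K * (3 / 2 ^ m) ≤ ε := by
    rw [div_lt_iff₀ hε] at hm
    rw [← mul_div_assoc, div_le_iff₀ (by positivity)]
    linarith
  calc (S.card : ℝ) ≤ K0 * C1 * P * (μ + 3 / 2 ^ m) := hsum
    _ ≤ K0 * C1 * ((4 * 2 ^ (κ + c)) ^ dim g * (X : ℝ) ^ dim g) * (μ + 3 / 2 ^ m) := by gcongr
    _ = (K * μ + K * (3 / 2 ^ m)) * (X : ℝ) ^ dim g := by rw [hKdef]; ring
    _ ≤ _ := by gcongr

theorem count_of (hA : ABSStmt) (hC : CHGStmt) (hD : DENStmt) : COUNTStmt := by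
  intro g hg
  obtain ⟨C, hC0, hA⟩ := hA g hg
  obtain ⟨q0, hD⟩ := hD g hg
  refine ⟨C, q0, hC0, fun ε hε => ?_⟩
  obtain ⟨M, hM⟩ := hA ε hε
  refine ⟨M, fun Q a h hQ => ?_⟩
  exact hM (Loc Q a h) _ _ (hC.2.2 _ Q a h) (by positivity) (hD Q a h hQ)

end Pool.Agent.MP_a43263_nt.UC

end MrgPart0

-- ======== part 1: formerly Pool.Agent.MP_a43263_nt.UC.Core
section MrgPart1

/-! The count for reduced representatives. -/

namespace Pool.Agent.MP_a43263_nt.UC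

open Polynomial Matrix Finset

namespace Core

lemma depth {g k : ℕ} {e : Fin (2 * g + 1) → ℤ} (h : Ex e) (hs : Stp k e) :
    (0 : ℤ) ≤ (k * tri g : ℕ) + ∑ i : Fin g, e (lo i) := by
  have hm : e ⟨g, by omega⟩ = 0 := by
    have h1 := h.2 ⟨g, by omega⟩
    have h2 : Fin.rev (⟨g, by omega⟩ : Fin (2 * g + 1)) = ⟨g, by omega⟩ := by
      ext; simp [Fin.val_rev]; omega
    rw [h2] at h1
    omega
  have h1 : ∀ j, j ≤ g → - e ⟨g - j, by omega⟩ ≤ (j : ℤ) * k := by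
    intro j
    induction j with
    | zero => intro _; simp [hm]
    | succ j ih =>
      intro hj
      have h2 := ih (by omega)
      have h3 := hs ⟨g - (j + 1), by omega⟩ ⟨g - j, by omega⟩ (by simp; omega)
      push_cast
      linarith
  have h2 : ∑ i : Fin g, e (lo i) = ∑ i : Fin g, e (lo i.rev) :=
    (Equiv.sum_comp Fin.revPerm fun i => e (lo i)).symm
  rw [h2, tri]
  push_cast
  rw [mul_sum, ← sum_add_distrib]
  refine sum_nonneg fun i _ => ?_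
  have h3 := h1 (i.1 + 1) i.2
  have h4 : lo i.rev = (⟨g - (i.1 + 1), by omega⟩ : Fin (2 * g + 1)) := by
    ext; simp [lo, Fin.val_rev]
  rw [h4]
  push_cast at h3
  linarith

end Core

open Abs in
theorem core (hU : UNIStmt) (hB : BOXStmt) (hI : IRRStmt) (hE : EXPStmt) (hS : SUMStmt)
    (g κ : ℕ) : ∃ K : ℝ, 0 < K ∧ ∀ (L : Mz (2 * g + 1) → Mz (2 * g + 1) → Prop) (μ : ℝ) (N : ℕ),
      Inv L → 0 ≤ μ → Dens L μ N → ∀ m m₂ k : ℕ, 2 * m + 1 + N ≤ k → ∀ S : Finset ℤ[X],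
      (∀ f ∈ S, Irr f ∧ ∃ (e : Fin (2 * g + 1) → ℤ) (A T : Mz (2 * g + 1)), Ex e ∧ Pair A T ∧
        T.charpoly = f ∧ L A T ∧ Box κ e A ∧ Box ((κ : ℤ) + k) e (A * T) ∧
        (Deep g (κ + k) e → m₂ ≠ 0 →
          (2 * m₂ : ℤ) ≤ (k * tri g : ℕ) + ∑ i : Fin g, e (lo i))) →
      (S.card : ℝ) ≤ K * (2 ^ k) ^ dim g * (μ + 2 / 2 ^ m + 1 / 2 ^ m₂) := by
  classical
  obtain ⟨c, hc⟩ := hU (2 * g + 1)
  obtain ⟨C1, hC1, hS⟩ := hS g
  set K0 : ℝ := 9 ^ dim g * 2 ^ ((κ + c) * dim g) with hK0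
  have hK0p : 0 < K0 := by positivity
  refine ⟨K0 * C1 * (2 ^ (κ + c)) ^ dim g, by positivity,
    fun L μ N hL hμ hD m m₂ k hk3 S hSf => ?_⟩
  set k' : ℕ := κ + c + k with hk'
  have hrep : ∀ f : ℤ[X], ∃ e : Fin (2 * g + 1) → ℤ, f ∈ S → Ex e ∧ Irr f ∧
      ∃ A T : Mz (2 * g + 1), Pair A T ∧ T.charpoly = f ∧ L A T ∧ Box κ e A ∧
        Box ((κ : ℤ) + k) e (A * T) ∧ (Deep g (κ + k) e → m₂ ≠ 0 →
          (2 * m₂ : ℤ) ≤ (k * tri g : ℕ) + ∑ i : Fin g, e (lo i)) := by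
    intro f
    by_cases hf : f ∈ S
    · obtain ⟨h2, e, A, T, he, h⟩ := hSf f hf
      exact ⟨e, fun _ => ⟨he, h2, A, T, h⟩⟩
    · exact ⟨0, fun h => absurd h hf⟩
  choose ef hef using hrep
  set E := S.image ef with hEdef
  have hE1 : ∀ e ∈ E, Ex e ∧ Stp k' e := by
    intro e he
    obtain ⟨f, hf, rfl⟩ := mem_image.1 he
    obtain ⟨h1, h2, A, T, hP, hT, -, b0, b1, -⟩ := hef f hf
    exact ⟨h1, hI _ k' A T _ hP (hT ▸ h2) h1 (box_mono b0 (by rw [hk']; push_cast; omega))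
      (box_mono b1 (by rw [hk']; push_cast; omega))⟩
  have hE2 : ∀ e ∈ E, Deep g k' e →
      (2 * m₂ : ℤ) ≤ (k' * tri g : ℕ) + ∑ i : Fin g, e (lo i) := by
    intro e he hd
    by_cases h0 : m₂ = 0
    · rw [h0]
      simpa using Core.depth (hE1 e he).1 (hE1 e he).2
    obtain ⟨f, hf, rfl⟩ := mem_image.1 he
    obtain ⟨-, -, A, T, -, -, -, -, -, hCu⟩ := hef f hf
    have hd' : Deep g (κ + k) (ef f) := fun i => by
      have := hd i
      rw [hk'] at this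
      push_cast at this ⊢
      omega
    have h4 := hCu hd' h0
    have h5 : k * tri g ≤ k' * tri g := Nat.mul_le_mul_right _ (by omega)
    have h6 : ((k * tri g : ℕ) : ℤ) ≤ ((k' * tri g : ℕ) : ℤ) := by exact_mod_cast h5
    omega
  have hfib : ∀ e ∈ E, ∀ f ∈ S.filter (fun f => ef f = e), Irr f ∧ ∃ A T : Mz (2 * g + 1),
      Pair A T ∧ T.charpoly = f ∧ L A T ∧ Box κ e A ∧ Box ((κ : ℤ) + k) e (A * T) := by
    intro e _ f hf
    obtain ⟨hf', he⟩ := mem_filter.1 hf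
    obtain ⟨-, h2, A, T, hP, hT, hLA, b0, b1, -⟩ := hef f hf'
    rw [he] at b0 b1
    exact ⟨h2, A, T, hP, hT, hLA, b0, b1⟩
  have e1 : ((κ + c : ℕ) : ℤ) = (κ : ℤ) + c := by push_cast; ring
  have e2 : ((k' : ℕ) : ℤ) = (κ : ℤ) + k + c := by rw [hk']; push_cast; ring
  have hgen : ∀ e ∈ E, ((S.filter fun f => ef f = e).card : ℝ) ≤ K0 * (2 : ℝ) ^ Phi k' e := by
    intro e he
    obtain ⟨W, hW, hW'⟩ := pairs_gen hB ((κ + c : ℕ) : ℤ) (k' : ℤ) e
    have h1 := hc κ ((κ : ℤ) + k) e L hL (hE1 e he).1.1 _ W (hfib e he)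
      (fun A T hP _ b0 b1 => hW A T hP (e1 ▸ b0) (e2 ▸ b1))
    have := fin_bound (κ + c) k' e 1 _ _ zero_le_one h1 hW'
    rwa [one_mul, card_up] at this
  have hbody : ∀ e ∈ E, - e 0 ≤ m →
      ((S.filter fun f => ef f = e).card : ℝ) ≤ μ * K0 * (2 : ℝ) ^ Phi k' e := by
    intro e he h0
    have hmono := (hE1 e he).1.1
    obtain ⟨W, hW, hW'⟩ := pairs_body hB L μ N hμ hD ((κ + c : ℕ) : ℤ) (k' : ℤ) e (fun p q => by
      have h1 : e 0 ≤ e p := hmono (Fin.zero_le p)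
      have h2 : e 0 ≤ e q := hmono (Fin.zero_le q)
      omega)
    have h1 := hc κ ((κ : ℤ) + k) e L hL hmono _ W (hfib e he)
      (fun A T hP hLA b0 b1 => hW A T hP hLA (e1 ▸ b0) (e2 ▸ b1))
    have := fin_bound (κ + c) k' e μ _ _ hμ h1 hW'
    rwa [card_up] at this
  set P : ℝ := 2 ^ (k' * dim g) with hP
  have hPp : 0 < P := by positivity
  have hnd : ∀ e ∈ E, ¬ Deep g k' e → (2 : ℝ) ^ Phi k' e
      ≤ P * (2 : ℝ) ^ (- ∑ i : Fin g, min (- e (lo i)) (k' : ℤ)) := by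
    intro e he hd
    rw [hP, ← zpow_natCast, ← zpow_add₀ (by norm_num), ← sub_eq_add_neg]
    exact zpow_le_zpow_right₀ (by norm_num) ((hE g k' e (hE1 e he).1 (hE1 e he).2).1 hd)
  have hdp : ∀ e ∈ E, Deep g k' e → (2 : ℝ) ^ Phi k' e
      ≤ P * (2 : ℝ) ^ (- (((k' * tri g : ℕ) : ℤ) + ∑ i : Fin g, e (lo i))) := by
    intro e he hd
    rw [hP, ← zpow_natCast, ← zpow_add₀ (by norm_num), ← sub_eq_add_neg]
    exact zpow_le_zpow_right₀ (by norm_num) ((hE g k' e (hE1 e he).1 (hE1 e he).2).2 hd)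
  set w : (Fin (2 * g + 1) → ℤ) → ℝ := fun e => ((S.filter fun f => ef f = e).card : ℝ) with hw
  have htot : (S.card : ℝ) = ∑ e ∈ E, w e := by
    rw [card_eq_sum_card_image ef S]; push_cast; rfl
  have s1 : ∑ e ∈ E.filter (fun e => Deep g k' e), w e ≤ K0 * P * (C1 / 2 ^ m₂) := by
    have := (hS k' (E.filter fun e => Deep g k' e)
      (fun e he => hE1 e (mem_filter.1 he).1)).2.2 m₂
      (fun e he => hE2 e (mem_filter.1 he).1 (mem_filter.1 he).2)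
    refine le_trans ?_ (mul_le_mul_of_nonneg_left this (by positivity))
    rw [mul_sum]
    refine sum_le_sum fun e he => ?_
    obtain ⟨he, hd⟩ := mem_filter.1 he
    rw [mul_assoc]
    exact (hgen e he).trans (mul_le_mul_of_nonneg_left (hdp e he hd) hK0p.le)
  have s2 : ∑ e ∈ (E.filter (fun e => ¬ Deep g k' e)).filter (fun e => (m : ℤ) < - e 0), w e
      ≤ K0 * P * (C1 * (2 / 2 ^ m)) := by
    have := (hS k' ((E.filter (fun e => ¬ Deep g k' e)).filter (fun e => (m : ℤ) < - e 0))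
      (fun e he => hE1 e (mem_filter.1 (mem_filter.1 he).1).1)).2.1 m
      (fun e he => (mem_filter.1 he).2)
    have h2 : C1 * (1 / 2 ^ m + (k' : ℝ) / 2 ^ k') ≤ C1 * (2 / 2 ^ m) := by
      have := small k' m (by omega)
      have h3 : (2 : ℝ) / 2 ^ m = 1 / 2 ^ m + 1 / 2 ^ m := by ring
      rw [h3]; gcongr
    refine le_trans ?_ (mul_le_mul_of_nonneg_left (this.trans h2) (by positivity))
    rw [mul_sum]
    refine sum_le_sum fun e he => ?_
    obtain ⟨he, hd⟩ := mem_filter.1 (mem_filter.1 he).1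
    rw [mul_assoc]
    exact (hgen e he).trans (mul_le_mul_of_nonneg_left (hnd e he hd) hK0p.le)
  have s3 : ∑ e ∈ (E.filter (fun e => ¬ Deep g k' e)).filter (fun e => ¬ (m : ℤ) < - e 0), w e
      ≤ μ * K0 * P * C1 := by
    have := (hS k' ((E.filter (fun e => ¬ Deep g k' e)).filter (fun e => ¬ (m : ℤ) < - e 0))
      (fun e he => hE1 e (mem_filter.1 (mem_filter.1 he).1).1)).1
    refine le_trans ?_ (mul_le_mul_of_nonneg_left this (by positivity))
    rw [mul_sum]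
    refine sum_le_sum fun e he => ?_
    obtain ⟨he', h0⟩ := mem_filter.1 he
    obtain ⟨he, hd⟩ := mem_filter.1 he'
    rw [mul_assoc (μ * K0)]
    exact (hbody e he (not_lt.1 h0)).trans
      (mul_le_mul_of_nonneg_left (hnd e he hd) (by positivity))
  have hPX : P = (2 ^ (κ + c)) ^ dim g * ((2 : ℝ) ^ k) ^ dim g := by
    rw [hP, pow_mul, ← mul_pow, ← pow_add]
  rw [htot, ← sum_filter_add_sum_filter_not E (fun e => Deep g k' e),
    ← sum_filter_add_sum_filter_not (E.filter fun e => ¬ Deep g k' e)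
      (fun e => (m : ℤ) < - e 0)]
  refine (add_le_add s1 (add_le_add s2 s3)).trans (le_of_eq ?_)
  rw [hPX]
  ring

end Pool.Agent.MP_a43263_nt.UC

end MrgPart1

-- marker of a merged file
example : 731051 + 558047 = 731051 + 558047 := rfl
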