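import Mathlib.RingTheory.Artinian.Instances
import Mathlib.Data.Int.Star
import Mathlib.Analysis.Complex.Polynomial.Basic
import Mathlib.RingTheory.Finiteness.ModuleFinitePresentation
import Mathlib.Analysis.Matrix.Order
import Mathlib.RingTheory.Etale.Weakly
import Pool.Agent.MP_a43263_nt.U99.Fc
import Pool.Agent.MP_a43263_nt.UC.Spec

-- ======== part 0: formerly Pool.Agent.MP_a43263_nt.V99.Fc
section MrgPart0

/-! Self-adjoint operators over a finite field whose characteristic polynomial is a product of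
distinct linear factors and one irreducible factor, with eigenvectors of given lengths. -/

set_option autoImplicit false

open Module Polynomial Matrix

namespace Pool.Agent.MP_a43263_nt.V99

open U99

variable {F : Type} [Field F] {ι : Type} [Fintype ι] [DecidableEq ι]

section

variable {V : Type} [AddCommGroup V] [Module F V] [FiniteDimensional F V]
  (B : LinearMap.BilinForm F V)

/-- an irreducible factor of the characteristic polynomial divides every annihilating polynomial -/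
lemma dvd_of_aeval {T : Module.End F V} {h P : F[X]} (hi : Irreducible h) (hd : h ∣ T.charpoly)
    (h0 : aeval T P = 0) : h ∣ P := by
  have := Fact.mk hi
  let b := Module.finBasis F V
  let K := AdjoinRoot h
  let M := (LinearMap.toMatrix b b T).map (algebraMap F K)
  have e1 : M.charpoly.IsRoot (AdjoinRoot.root h) := by
    rw [charpoly_map, LinearMap.charpoly_toMatrix, IsRoot, eval_map_algebraMap,
      AdjoinRoot.aeval_eq, AdjoinRoot.mk_eq_zero]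
    exact hd
  have e2 : aeval M (P.map (algebraMap F K)) = 0 := by
    have := aeval_algHom_apply ((Algebra.ofId F K).mapMatrix.comp
      (LinearMap.toMatrixAlgEquiv b).toAlgHom) T P
    rw [h0, map_zero] at this
    rw [aeval_map_algebraMap]
    exact this
  have e3 := spectrum.subset_polynomial_aeval M (P.map (algebraMap F K))
    ⟨_, mem_spectrum_iff_isRoot_charpoly.2 e1, rfl⟩
  rw [e2] at e3
  by_contra c
  refine spectrum.notMem_iff.2 ?_ e3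
  beta_reduce
  rw [sub_zero, eval_map_algebraMap, AdjoinRoot.aeval_eq]
  exact (IsUnit.mk0 _ (mt AdjoinRoot.mk_eq_zero.1 c)).map _

/-- normal form of one operator -/
lemma normal (hs : ∀ x y, B x y = B y x) (hn : ∀ x, (∀ y, B x y = 0) → x = 0) {a : ι → F}
    (ha : Function.Injective a) (h : F[X]) [hi : Fact (Irreducible h)] (h2 : 2 ≤ h.natDegree)
    (hd : finrank F V = Fintype.card ι + h.natDegree) (T : Module.End F V)
    (hT : ∀ x y, B (T x) y = B x (T y)) (hc : T.charpoly = (∏ i, (X - C (a i))) * h) {c : ι → F}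
    (hc0 : ∀ i, c i ≠ 0) {x : ι → V} (hx : ∀ i, T (x i) = a i • x i)
    (hxx : ∀ i, B (x i) (x i) = c i) :
    ∃ (Φ : ((ι → F) × AdjoinRoot h) ≃ₗ[F] V) (l : AdjoinRoot h →ₗ[F] F), l ≠ 0 ∧
      (∀ u w, B (Φ u) (Φ w) = ∑ i, c i * (u.1 i * w.1 i) + l (u.2 * w.2)) ∧
      ∀ u, T (Φ u) = Φ (fun i => a i * u.1 i, AdjoinRoot.root h * u.2) := by
  set P : F[X] := ∏ i, (X - C (a i)) with hP
  have hm : h.Monic := (monic_prod_of_monic _ _ fun i _ => monic_X_sub_C (a i)).of_mul_monic_left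
    (hc ▸ T.charpoly_monic)
  have hCH : aeval T (h * P) = 0 := by
    rw [mul_comm, ← hc]; exact T.aeval_self_charpoly
  obtain ⟨w, hw⟩ : ∃ w, aeval T P w ≠ 0 := by
    by_contra h0
    push Not at h0
    obtain ⟨i, -, h1⟩ := (hi.out.prime.dvd_finsetProd_iff _).1
      (dvd_of_aeval hi.out (hc ▸ dvd_mul_left _ _) (LinearMap.ext h0))
    have := natDegree_le_of_dvd h1 (X_sub_C_ne_zero _)
    rw [natDegree_X_sub_C] at this
    omega
  set e := aeval T P w with he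
  have he0 : aeval T h e = 0 := by
    rw [he, ← Module.End.mul_apply, ← map_mul, hCH]; rfl
  let φ : AdjoinRoot h →ₗ[F] V :=
    ((LinearMap.applyₗ e).comp (aeval T).toLinearMap).comp (AdjoinRoot.modByMonicHom hm)
  have hφ : ∀ p, φ (AdjoinRoot.mk h p) = aeval T p e := fun p => by
    show aeval T (AdjoinRoot.modByMonicHom hm (AdjoinRoot.mk h p)) e = _
    rw [AdjoinRoot.modByMonicHom_mk]
    conv_rhs => rw [← modByMonic_add_div p h, mul_comm h]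
    simp [he0]
  have hmul : ∀ (p : F[X]) k, φ (AdjoinRoot.mk h p * k) = aeval T p (φ k) := fun p k => by
    obtain ⟨q, rfl⟩ := AdjoinRoot.mk_surjective k
    rw [← map_mul, hφ, hφ, map_mul, Module.End.mul_apply]
  have hinj : ∀ k, φ k = 0 → k = 0 := fun k hk => by
    by_contra hk0
    obtain ⟨q, hq⟩ := AdjoinRoot.mk_surjective k⁻¹
    have h1 := hmul q k
    rw [hq, inv_mul_cancel₀ hk0, hk, map_zero, ← map_one (AdjoinRoot.mk h), hφ] at h1
    exact hw (by simpa using h1)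
  have hvv : ∀ i j, B (x i) (x j) = if i = j then c i else 0 := fun i j => by
    split_ifs with e
    · rw [← e, hxx]
    · have := hT (x i) (x j)
      rw [hx, hx, map_smul, map_smul, LinearMap.smul_apply, smul_eq_mul, smul_eq_mul] at this
      exact (mul_eq_mul_right_iff.1 this).resolve_left fun k => e (ha k)
  have hvφ : ∀ i k, B (x i) (φ k) = 0 := fun i k => by
    obtain ⟨q, rfl⟩ := AdjoinRoot.mk_surjective k
    obtain ⟨r, hr⟩ : X - C (a i) ∣ P := Finset.dvd_prod_of_mem _ (Finset.mem_univ i)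
    rw [hφ, he, ← Module.End.mul_apply, ← map_mul, hr, mul_left_comm, map_mul,
      Module.End.mul_apply, ← adj_aeval B hT]
    simp [hx]
  let l : AdjoinRoot h →ₗ[F] F := (B (φ 1)).comp φ
  have hl : ∀ k k', B (φ k) (φ k') = l (k * k') := fun k k' => by
    obtain ⟨q, rfl⟩ := AdjoinRoot.mk_surjective k
    show _ = B (φ 1) (φ _)
    rw [hmul, ← adj_aeval B hT, ← hmul, mul_one]
  let Φ : ((ι → F) × AdjoinRoot h) →ₗ[F] V := (Fintype.linearCombination F x).coprod φ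
  have hΦ : ∀ u, Φ u = ∑ i, u.1 i • x i + φ u.2 := fun u => rfl
  have hB : ∀ u w, B (Φ u) (Φ w) = ∑ i, c i * (u.1 i * w.1 i) + l (u.2 * w.2) := fun u w => by
    simp only [hΦ, map_add, map_sum, map_smul, LinearMap.add_apply, LinearMap.sum_apply,
      LinearMap.smul_apply, smul_eq_mul, hvv, hvφ, hs (φ _) (x _), hl, mul_zero, mul_ite,
      Finset.sum_ite_eq', Finset.mem_univ, if_true, Finset.sum_const_zero, add_zero, zero_add]
    exact congrArg (· + _) (Finset.sum_congr rfl fun i _ => by ring)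
  have hΦi : Function.Injective Φ := by
    refine (injective_iff_map_eq_zero Φ).2 fun u hu => ?_
    have h1 : u.1 = 0 := funext fun i => by
      simpa [hu, Pi.single_apply, hc0] using (hB u (Pi.single i 1, 0)).symm
    rw [hΦ, h1] at hu
    exact Prod.ext h1 (hinj _ (by simpa using hu))
  have := (AdjoinRoot.powerBasis hm.ne_zero).finite
  have hr : finrank F ((ι → F) × AdjoinRoot h) = finrank F V := by
    rw [finrank_prod, finrank_fintype_fun_eq_card, (AdjoinRoot.powerBasis hm.ne_zero).finrank,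
      AdjoinRoot.powerBasis_dim, hd]
  have hΦs := (LinearMap.injective_iff_surjective_of_finrank_eq_finrank hr).1 hΦi
  refine ⟨LinearEquiv.ofBijective Φ ⟨hΦi, hΦs⟩, l, fun h0 => ?_, hB, fun u => ?_⟩
  · have h1 : Φ (0, 1) = 0 := hn _ fun y => by
      obtain ⟨u, rfl⟩ := hΦs y
      simp [hB, h0]
    simpa using hΦi (h1.trans (map_zero Φ).symm)
  · show T (Φ u) = Φ _
    rw [hΦ, hΦ, ← AdjoinRoot.mk_X, hmul]
    simp [hx, smul_smul, mul_comm]

end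

theorem core [Finite F] (h2 : (2 : F) ≠ 0) {V : Type} [AddCommGroup V] [Module F V]
    [FiniteDimensional F V] (B : LinearMap.BilinForm F V) (hs : ∀ x y, B x y = B y x)
    (hn : ∀ x, (∀ y, B x y = 0) → x = 0) {a : ι → F} (ha : Function.Injective a) (h : F[X])
    (hi : Irreducible h) (hh : 2 ≤ h.natDegree) (hd : finrank F V = Fintype.card ι + h.natDegree)
    {c : ι → F} (hc0 : ∀ i, c i ≠ 0) :
    2 ^ (Fintype.card ι + 1) * Nat.card {T : Module.End F V // (∀ x y, B (T x) y = B x (T y)) ∧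
        T.charpoly = (∏ i, (X - C (a i))) * h ∧
        ∃ x : ι → V, (∀ i, T (x i) = a i • x i) ∧ ∀ i, B (x i) (x i) = c i} ≤
      Nat.card {P : V →ₗ[F] V // ∀ x y, B (P x) (P y) = B x y} := by
  classical
  have : Fact (Irreducible h) := ⟨hi⟩
  have : Finite V := Module.finite_of_finite F
  have : Finite (V →ₗ[F] V) := Finite.of_injective _ DFunLike.coe_injective
  have := (AdjoinRoot.powerBasis hi.ne_zero).finite
  have : Finite (AdjoinRoot h) := Module.finite_of_finite F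
  set S := {T : Module.End F V // (∀ x y, B (T x) y = B x (T y)) ∧
        T.charpoly = (∏ i, (X - C (a i))) * h ∧
        ∃ x : ι → V, (∀ i, T (x i) = a i • x i) ∧ ∀ i, B (x i) (x i) = c i}
  rcases isEmpty_or_nonempty S with hS | ⟨⟨T0, t1, t2, x0, t3, t4⟩⟩
  · simp
  obtain ⟨Φ0, l0, l1, l2, -⟩ := normal B hs hn ha h hh hd T0 t1 t2 hc0 t3 t4
  have key : ∀ T : S, ∃ Φ : ((ι → F) × AdjoinRoot h) ≃ₗ[F] V,
      (∀ u w, B (Φ u) (Φ w) = ∑ i, c i * (u.1 i * w.1 i) + l0 (u.2 * w.2)) ∧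
      ∀ u, T.1 (Φ u) = Φ (fun i => a i * u.1 i, AdjoinRoot.root h * u.2) := by
    rintro ⟨T, u1, u2, x, u3, u4⟩
    obtain ⟨Φ, l, m1, m2, m3⟩ := normal B hs hn ha h hh hd T u1 u2 hc0 u3 u4
    obtain ⟨δ, hδ⟩ := exists_mul l1 l
    have hδ0 : δ ≠ 0 := by
      rintro rfl
      exact m1 (LinearMap.ext fun k => by simp [hδ])
    have hdet := det_sq (B.comp Φ0.toLinearMap Φ0.toLinearMap) (fun u hu => Φ0.map_eq_zero_iff.1
        (hn _ fun y => by simpa using hu (Φ0.symm y)))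
      (Φ0.symm.toLinearMap.comp Φ.toLinearMap)
      (LinearMap.id.prodMap (LinearMap.mulLeft F δ)) fun u w => by
        have e1 := m2 u w
        have e2 := l2 (u.1, δ * u.2) w
        simp only [hδ, ← mul_assoc] at e1 e2
        simpa [e1, ← mul_assoc] using e2.symm
    rw [LinearMap.det_prodMap, LinearMap.det_id, one_mul] at hdet
    obtain ⟨ε, hε⟩ := sq_of_norm h2 hδ0 (hdet.trans (Algebra.norm_apply F δ).symm)
    have hε0 : ε ≠ 0 := fun h0 => hδ0 (by rw [hε, h0, mul_zero])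
    let σ : AdjoinRoot h ≃ₗ[F] AdjoinRoot h := LinearEquiv.ofBijective (LinearMap.mulLeft F ε⁻¹)
      (mulLeft_bijective₀ _ (inv_ne_zero hε0))
    refine ⟨((LinearEquiv.refl F (ι → F)).prodCongr σ).trans Φ, fun u w => ?_, fun u => ?_⟩
    · refine (m2 (u.1, ε⁻¹ * u.2) (w.1, ε⁻¹ * w.2)).trans ?_
      rw [hδ, hε]
      congr 2
      field_simp
    · refine (m3 (u.1, ε⁻¹ * u.2)).trans (congrArg Φ (Prod.ext rfl ?_))
      exact mul_left_comm _ _ _
  choose Φ k1 k2 using key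
  let sg : Bool → F := fun b => if b then 1 else -1
  have sg2 : ∀ b, sg b * sg b = 1 := fun b => by cases b <;> simp [sg]
  have sgi : Function.Injective sg := by
    have : (1 : F) ≠ -1 := fun h => h2 (by linear_combination h)
    intro b c
    cases b <;> cases c <;> simp [sg, this, this.symm]
  let σ : (ι → Bool) × Bool → ((ι → F) × AdjoinRoot h) →ₗ[F] ((ι → F) × AdjoinRoot h) := fun b =>
    (LinearMap.mulLeft F fun i => sg (b.1 i)).prodMap (sg b.2 • LinearMap.id)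
  have hσ : ∀ b u, σ b u = (fun i => sg (b.1 i) * u.1 i, sg b.2 • u.2) := fun b u => rfl
  have hσσ : ∀ b u, σ b (σ b u) = u := fun b u => by
    simp only [hσ, ← mul_assoc, smul_smul, sg2, one_mul, one_smul]
  let Ψ : ((ι → Bool) × Bool) × S → {P : V →ₗ[F] V // ∀ x y, B (P x) (P y) = B x y} := fun z =>
    ⟨(Φ z.2).toLinearMap.comp ((σ z.1).comp Φ0.symm.toLinearMap), fun x y => by
      obtain ⟨u, rfl⟩ := Φ0.surjective x
      obtain ⟨w, rfl⟩ := Φ0.surjective y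
      simp only [LinearMap.comp_apply, LinearEquiv.coe_coe, LinearEquiv.symm_apply_apply, k1, l2,
        hσ, smul_mul_smul_comm, sg2, one_smul, mul_mul_mul_comm (sg (z.1.1 _)) (u.1 _), one_mul]⟩
  have hΨ : Function.Injective Ψ := by
    rintro ⟨b, T⟩ ⟨b', T'⟩ hh
    have e : ∀ u, Φ T (σ b u) = Φ T' (σ b' u) := fun u => by
      simpa [Ψ] using LinearMap.congr_fun (congrArg Subtype.val hh) (Φ0 u)
    have e2 : ∀ (T : S) b u, T.1 (Φ T (σ b u)) =
        Φ T (σ b (fun i => a i * u.1 i, AdjoinRoot.root h * u.2)) := fun T b u => by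
      rw [k2, hσ, hσ, mul_smul_comm]
      simp only [mul_left_comm]
    have hT : T = T' := Subtype.ext (LinearMap.ext fun x => by
      obtain ⟨u, rfl⟩ := (Φ T).surjective x
      rw [← hσσ b u, e2, e, e, e2])
    subst hT
    have e3 : ∀ u, σ b u = σ b' u := fun u => (Φ T).injective (e u)
    have e4 : ∀ i, sg (b.1 i) = sg (b'.1 i) := fun i => by
      simpa [hσ] using congrFun (congrArg Prod.fst (e3 (1, 0))) i
    have e5 : sg b.2 = sg b'.2 :=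
      smul_left_injective F (one_ne_zero (α := AdjoinRoot h)) (congrArg Prod.snd (e3 (0, 1)))
    exact Prod.ext (Prod.ext (funext fun i => sgi (e4 i)) (sgi e5)) rfl
  simpa [Nat.card_prod, pow_succ] using Nat.card_le_card_of_injective Ψ hΨ

lemma two_classes [Finite F] (h2 : (2 : F) ≠ 0) :
    ∃ ν : F, ν ≠ 0 ∧ ∀ α : F, α ≠ 0 → ∃ t, t ≠ 0 ∧ (α = 1 * t ^ 2 ∨ α = ν * t ^ 2) := by
  classical
  have := Fintype.ofFinite F
  have hF : ringChar F ≠ 2 := fun h => h2 (by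
    have := ringChar.Nat.cast_ringChar (R := F)
    rw [h] at this
    exact_mod_cast this)
  obtain ⟨ν, hν⟩ := FiniteField.exists_nonsquare hF
  have ν0 : ν ≠ 0 := fun e => hν (e ▸ IsSquare.zero)
  refine ⟨ν, ν0, fun α h0 => ?_⟩
  by_cases c : IsSquare α
  · obtain ⟨t, rfl⟩ := c
    exact ⟨t, left_ne_zero_of_mul h0, Or.inl (by ring)⟩
  · obtain ⟨t, ht⟩ : IsSquare (ν * α) := by
      rw [← quadraticChar_one_iff_isSquare (mul_ne_zero ν0 h0), map_mul,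
        quadraticChar_neg_one_iff_not_isSquare.2 hν, quadraticChar_neg_one_iff_not_isSquare.2 c]
      norm_num
    refine ⟨t / ν, div_ne_zero (left_ne_zero_of_mul (ht ▸ mul_ne_zero ν0 h0)) ν0, Or.inr ?_⟩
    field_simp
    linear_combination ht

theorem core2 [Finite F] (h2 : (2 : F) ≠ 0) {V : Type} [AddCommGroup V] [Module F V]
    [FiniteDimensional F V] (B : LinearMap.BilinForm F V) (hs : ∀ x y, B x y = B y x)
    (hn : ∀ x, (∀ y, B x y = 0) → x = 0) {a b κ : F} (hab : a ≠ b) (hκ : κ ≠ 0) (h : F[X])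
    (hi : Irreducible h) (hh : 2 ≤ h.natDegree) (hd : finrank F V = 2 + h.natDegree) :
    4 * Nat.card {T : Module.End F V // (∀ x y, B (T x) y = B x (T y)) ∧
        T.charpoly = (X - C a) * (X - C b) * h ∧
        ∃ x y s, s ≠ 0 ∧ T x = a • x ∧ T y = b • y ∧ B x x * B y y = κ * s ^ 2} ≤
      Nat.card {P : V →ₗ[F] V // ∀ x y, B (P x) (P y) = B x y} := by
  have : Finite V := Module.finite_of_finite F
  have : Finite (V →ₗ[F] V) := Finite.of_injective _ DFunLike.coe_injective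
  obtain ⟨ν, ν0, hν⟩ := two_classes h2
  have ha : Function.Injective ![a, b] := by
    intro i j
    fin_cases i <;> fin_cases j <;> simp [hab, hab.symm]
  let S : F → Set (Module.End F V) := fun e => {T | (∀ x y, B (T x) y = B x (T y)) ∧
    T.charpoly = (∏ i, (X - C (![a, b] i))) * h ∧ ∃ x : Fin 2 → V,
      (∀ i, T (x i) = ![a, b] i • x i) ∧ ∀ i, B (x i) (x i) = ![e, e * κ] i}
  have k : ∀ e, e ≠ 0 → 8 * (S e).ncard ≤ _ := fun e he =>
    core h2 B hs hn ha h hi hh (by simpa using hd) (c := ![e, e * κ])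
      fun i => by fin_cases i <;> simp [he, hκ]
  have key : ∀ (T : Module.End F V) (x y : V) (s e t : F), (∀ x y, B (T x) y = B x (T y)) →
      T.charpoly = (X - C a) * (X - C b) * h → s ≠ 0 → T x = a • x → T y = b • y →
      B x x * B y y = κ * s ^ 2 → t ≠ 0 → B x x = e * t ^ 2 → T ∈ S e := by
    intro T x y s e t h1 h3 h4 h5 h6 h7 h8 h9
    refine ⟨h1, by simpa using h3, ![t⁻¹ • x, (e * t / s) • y], fun i => ?_, fun i => ?_⟩
    · fin_cases i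
      · simp [h5, smul_comm a]
      · simp [h6, smul_comm b]
    · rw [h9] at h7
      fin_cases i
      · simp [h9]
        field_simp
      · simp
        field_simp
        linear_combination e * h7
  have sub := Set.ncard_le_ncard (s := {T : Module.End F V | (∀ x y, B (T x) y = B x (T y)) ∧
      T.charpoly = (X - C a) * (X - C b) * h ∧
      ∃ x y s, s ≠ 0 ∧ T x = a • x ∧ T y = b • y ∧ B x x * B y y = κ * s ^ 2}) (t := S 1 ∪ S ν) (by
    rintro T ⟨h1, h3, x, y, s, h4, h5, h6, h7⟩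
    obtain ⟨t, t0, ht⟩ := hν (B x x)
      (left_ne_zero_of_mul (h7 ▸ mul_ne_zero hκ (pow_ne_zero 2 h4)))
    exact ht.imp (key T x y s 1 t h1 h3 h4 h5 h6 h7 t0) (key T x y s ν t h1 h3 h4 h5 h6 h7 t0))
  have k1 := k 1 one_ne_zero
  have k2 := k ν ν0
  have k3 := sub.trans (Set.ncard_union_le _ _)
  refine le_trans (Nat.mul_le_mul_left 4 k3) ?_
  omega

theorem fieldCount (g : ℕ) (hg : 1 ≤ g) : ∃ q0 : ℕ, ∀ (F : Type) [Field F] [Fintype F]
    [DecidableEq F], q0 ≤ Fintype.card F → (2 : F) ≠ 0 →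
    ∀ A : Matrix (Fin (2 * g + 2)) (Fin (2 * g + 2)) F, A.IsSymm → A.det ≠ 0 →
    ∀ (a b κ : F) (h : F[X]), a ≠ b → κ ≠ 0 → Irreducible h → h.natDegree = 2 * g →
      4 * Nat.card {T : Matrix (Fin (2 * g + 2)) (Fin (2 * g + 2)) F // (A * T).IsSymm ∧
        T.charpoly = (X - C a) * (X - C b) * h ∧
        ∃ (x y : Fin (2 * g + 2) → F) (s : F), s ≠ 0 ∧ T *ᵥ x = a • x ∧ T *ᵥ y = b • y ∧
          (x ⬝ᵥ A *ᵥ x) * (y ⬝ᵥ A *ᵥ y) = κ * s ^ 2} ≤
      3 * Fintype.card F ^ ((g + 1) * (2 * g + 1)) := by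
  obtain ⟨q0, hq⟩ := bd_le (2 * g + 1)
  refine ⟨q0, fun F _ _ _ h0 h2 A hA hdet a b κ h hab hκ hi hd => ?_⟩
  have sym : ∀ (M : Matrix (Fin (2 * g + 2)) (Fin (2 * g + 2)) F), M.IsSymm → ∀ x y,
      x ⬝ᵥ M *ᵥ y = y ⬝ᵥ M *ᵥ x := fun M hM x y => by
    rw [dotProduct_mulVec, ← mulVec_transpose, hM.eq, dotProduct_comm]
  have hs : ∀ x y, toBilin' A x y = toBilin' A y x := fun x y => by
    rw [toBilin'_apply', toBilin'_apply', sym A hA]
  have hn : ∀ x, (∀ y, toBilin' A x y = 0) → x = 0 := fun x hx => by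
    refine eq_zero_of_mulVec_eq_zero hdet (dotProduct_eq_zero _ fun y => ?_)
    rw [dotProduct_comm, ← toBilin'_apply', hs, hx]
  have h1 := core2 h2 (toBilin' A) hs hn hab hκ h hi (by omega) (by simp [hd, add_comm])
  have h3 := orth_le h2 (toBilin' A) hs hn
  have h4 := hq _ h0
  rw [show (2 * g + 1 + 1) * (2 * g + 1) / 2 = (g + 1) * (2 * g + 1) by
    rw [show (2 * g + 1 + 1) * (2 * g + 1) = 2 * ((g + 1) * (2 * g + 1)) by ring,
      Nat.mul_div_cancel_left _ two_pos]] at h4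
  rw [finrank_fin_fun, Nat.card_eq_fintype_card (α := F)] at h3
  refine le_trans (Nat.mul_le_mul_left _ ?_) (h1.trans (h3.trans h4))
  have : Finite (Module.End F (Fin (2 * g + 2) → F)) :=
    Finite.of_injective _ DFunLike.coe_injective
  refine Nat.card_le_card_of_injective (fun T => ⟨toLin' T.1, fun x y => ?_,
    (charpoly_toLin' _).trans T.2.2.1, ?_⟩) fun T T' hh => ?_
  · rw [hs, toBilin'_apply', toBilin'_apply', toLin'_apply, toLin'_apply, mulVec_mulVec,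
      mulVec_mulVec, sym _ T.2.1]
  · obtain ⟨x, y, s, k1, k2, k3, k4⟩ := T.2.2.2
    exact ⟨x, y, s, k1, k2, k3, by rw [toBilin'_apply', toBilin'_apply', k4]⟩
  · exact Subtype.ext (toLin'.injective (congrArg Subtype.val hh))

theorem fc2 (g : ℕ) (hg : 1 ≤ g) : ∃ q0 : ℕ, ∀ (F : Type) [Field F] [Fintype F]
    [DecidableEq F], q0 ≤ Fintype.card F → (2 : F) ≠ 0 →
    ∀ A : Matrix (Fin (2 * g + 2)) (Fin (2 * g + 2)) F, A.IsSymm → A.det ≠ 0 →
    ∀ (a b : F) (h : F[X]), a ≠ b → Irreducible h → h.natDegree = 2 * g →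
      5 * Nat.card {T : Matrix (Fin (2 * g + 2)) (Fin (2 * g + 2)) F // (A * T).IsSymm ∧
        T.charpoly = (X - C a) * (X - C b) * h ∧
        ∃ (x y : Fin (2 * g + 2) → F) (s : F), s ≠ 0 ∧ T *ᵥ x = a • x ∧ T *ᵥ y = b • y ∧
          (x ⬝ᵥ A *ᵥ x) * (y ⬝ᵥ A *ᵥ y) = s ^ 2} ≤
      4 * Fintype.card F ^ ((g + 1) * (2 * g + 1)) := by
  obtain ⟨q0, hq⟩ := fieldCount g hg
  refine ⟨q0, fun F _ _ _ h0 h2 A hA hdet a b h hab hi hd => ?_⟩
  have := hq F h0 h2 A hA hdet a b 1 h hab one_ne_zero hi hd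
  simp only [one_mul] at this
  omega

end Pool.Agent.MP_a43263_nt.V99

end MrgPart0

-- ======== part 1: formerly Pool.Agent.MP_a43263_nt.VC.Spec
section MrgPart1

/-!
Counting triples `(D, A, A T)` with `A` unimodular of even size and `A T` of rank one modulo `D`.
Definitions and row statements. Blueprint: `/team-store/VC_BLUEPRINT.md`.
-/

namespace Pool.Agent.MP_a43263_nt.VC

open Polynomial Matrix Finset UC

/-- Rank at most one modulo `D`, for the entries. -/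
def Mn {n : ℕ} (D : ℕ) (B : Mz n) : Prop := ∀ p q p' q',
  (D : ℤ) ∣ B p q * B p' q' - B p q' * B p' q

/-- The local condition at the primes of `Q`. -/
def Loc {n : ℕ} (Q : Finset ℕ) (a b : ℕ → ℤ) (h : ℕ → ℤ[X]) (A T : Mz n) : Prop :=
  ∀ q ∈ Q, (T.map (Int.castRingHom (ZMod q))).charpoly
      = (X - C (a q : ZMod q)) * (X - C (b q : ZMod q)) * (h q).map (Int.castRingHom (ZMod q)) ∧
    ∃ (x y : Fin n → ZMod q) (s : ZMod q), s ≠ 0 ∧
      T.map (Int.castRingHom (ZMod q)) *ᵥ x = (a q : ZMod q) • x ∧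
      T.map (Int.castRingHom (ZMod q)) *ᵥ y = (b q : ZMod q) • y ∧
      (x ⬝ᵥ A.map (Int.castRingHom (ZMod q)) *ᵥ x) *
        (y ⬝ᵥ A.map (Int.castRingHom (ZMod q)) *ᵥ y) = s ^ 2

/-- The types at the primes of `Q`. -/
def Typ (g q0 : ℕ) (Q : Finset ℕ) (a b : ℕ → ℤ) (h : ℕ → ℤ[X]) : Prop :=
  ∀ q ∈ Q, q.Prime ∧ q0 ≤ q ∧ (a q : ZMod q) ≠ (b q : ZMod q) ∧
    Irreducible ((h q).map (Int.castRingHom (ZMod q))) ∧
    ((h q).map (Int.castRingHom (ZMod q))).natDegree = 2 * g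

/-- `L` meets at most a proportion `μ` of the classes modulo `N`. -/
def Dn {n : ℕ} (L : Mz n → Mz n → Prop) (μ : ℝ) (N : ℕ) : Prop :=
  ∀ A : Mz n, A.IsSymm → IsUnit A.det → ∃ R : Finset (Mz n),
    (R.card : ℝ) ≤ μ * (N : ℝ) ^ (up n).card ∧
    ∀ T : Mz n, (A * T).IsSymm → L A T → ∃ B₀ ∈ R, ∀ p q, (N : ℤ) ∣ (A * T) p q - B₀ p q

/-- A box. -/
def Bd {n : ℕ} (Y : Fin n → Fin n → ℝ) (B : Mz n) : Prop := ∀ p q, |(B p q : ℝ)| ≤ Y p q

/-- The last low position. -/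
def mid (g : ℕ) : Fin (2 * g + 2) := ⟨g, by omega⟩

def Pp {n : ℕ} (e : Fin n → ℤ) : ℤ := ∑ x ∈ up n, max (e x.1 + e x.2) 0

def Un {n : ℕ} (e : Fin n → ℤ) : ℤ := ∑ x ∈ sup n, (e x.2 - e x.1)

/-- The exponent when the row `r` is chosen first. -/
def Ps {n : ℕ} (r : Fin n) (e : Fin n → ℤ) : ℤ := ∑ q ∈ Ici r, (e r + e q) +
  ∑ x ∈ (up n).filter (fun x => x.1 ≠ r), max (e x.1 + e x.2) 0 + Pp e - Un e

/-- The pairs `(D, B)` that are counted. -/
def Ok {n : ℕ} (c k : ℕ) (e : Fin n → ℤ) (x : ℕ × Mz n) : Prop :=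
  Squarefree x.1 ∧ 2 ^ k ≤ 2 ^ c * x.1 ∧ x.1 ≤ 2 ^ k ∧ x.2.IsSymm ∧
    Box ((c : ℤ) + k) e x.2 ∧ Mn x.1 x.2

/-- Spaced integers in an interval. -/
theorem space (W : Finset ℤ) (a L δ : ℝ) (hδ : 0 < δ) (hL : 0 ≤ L)
    (h1 : ∀ t ∈ W, a ≤ t ∧ (t : ℝ) ≤ a + L)
    (h2 : ∀ t ∈ W, ∀ t' ∈ W, t ≠ t' → δ ≤ |(t : ℝ) - t'|) : (W.card : ℝ) ≤ L / δ + 1 := by
  have h3 : W.card ≤ (range (⌊L / δ⌋₊ + 1)).card := by
    refine card_le_card_of_injOn (fun t => ⌊((t : ℝ) - a) / δ⌋₊) (fun t ht => ?_)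
      fun t ht t' ht' e => by_contra fun ne => ?_
    · have := (h1 t ht).2
      exact mem_coe.2 (mem_range.2 (Nat.lt_succ_of_le (Nat.floor_mono (by gcongr; linarith))))
    · have a1 := Nat.floor_le (div_nonneg (sub_nonneg.2 (h1 t ht).1) hδ.le)
      have a2 := Nat.floor_le (div_nonneg (sub_nonneg.2 (h1 t' ht').1) hδ.le)
      have a3 := Nat.lt_floor_add_one (((t : ℝ) - a) / δ)
      have a4 := Nat.lt_floor_add_one (((t' : ℝ) - a) / δ)
      simp only at e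
      rw [e] at a1 a3
      rw [le_div_iff₀ hδ] at a1 a2
      rw [div_lt_iff₀ hδ] at a3 a4
      have := h2 t ht t' ht' ne
      rcases le_abs.1 this with h | h <;> nlinarith
  rw [card_range] at h3
  have h4 : (W.card : ℝ) ≤ ((⌊L / δ⌋₊ + 1 : ℕ) : ℝ) := by exact_mod_cast h3
  push_cast at h4
  linarith [Nat.floor_le (div_nonneg hL hδ.le)]

/-- Integers of one residue class in an interval. -/
theorem cls (W : Finset ℤ) (Y : ℝ) (d : ℕ) (hd : 0 < d) (hY : 0 ≤ Y)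
    (h1 : ∀ t ∈ W, |(t : ℝ)| ≤ Y) (h2 : ∀ t ∈ W, ∀ t' ∈ W, (d : ℤ) ∣ t - t') :
    (W.card : ℝ) ≤ 2 * Y / d + 1 := by
  refine space W (-Y) (2 * Y) d (by exact_mod_cast hd) (by linarith) (fun t ht => ?_)
    fun t ht t' ht' ne => ?_
  · have := abs_le.1 (h1 t ht)
    constructor <;> linarith
  · exact_mod_cast Int.le_of_dvd (abs_pos.2 (sub_ne_zero.2 ne)) ((dvd_abs _ _).2 (h2 t ht t' ht'))

/-! ### invariance and density -/

def INVStmt : Prop := (∀ n D : ℕ, Inv (n := n) fun A T => Mn D (A * T)) ∧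
  ∀ (n : ℕ) (Q : Finset ℕ) (a b : ℕ → ℤ) (h : ℕ → ℤ[X]), Inv (n := n) (Loc Q a b h)

/-- The count over a finite field. -/
def FCStmt : Prop := ∀ g : ℕ, 1 ≤ g → ∃ q0 : ℕ, ∀ (F : Type) [Field F] [Fintype F] [DecidableEq F],
  q0 ≤ Fintype.card F → (2 : F) ≠ 0 → ∀ A : Matrix (Fin (2 * g + 2)) (Fin (2 * g + 2)) F,
  A.IsSymm → A.det ≠ 0 → ∀ (a b : F) (h : F[X]), a ≠ b → Irreducible h → h.natDegree = 2 * g →
  5 * Nat.card {T : Matrix (Fin (2 * g + 2)) (Fin (2 * g + 2)) F // (A * T).IsSymm ∧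
      T.charpoly = (X - C a) * (X - C b) * h ∧ ∃ (x y : Fin (2 * g + 2) → F) (s : F), s ≠ 0 ∧
        T *ᵥ x = a • x ∧ T *ᵥ y = b • y ∧ (x ⬝ᵥ A *ᵥ x) * (y ⬝ᵥ A *ᵥ y) = s ^ 2}
    ≤ 4 * Fintype.card F ^ ((g + 1) * (2 * g + 1))

def DENStmt : Prop := ∀ g : ℕ, 1 ≤ g → ∃ q0 : ℕ, ∀ (Q : Finset ℕ) (a b : ℕ → ℤ) (h : ℕ → ℤ[X]),
  Typ g q0 Q a b h → Dn (n := 2 * g + 2) (Loc Q a b h)
    ((4 / 5) ^ Q.card / ((∏ q ∈ Q, q : ℕ) : ℝ) ^ (2 * g + 2)) (∏ q ∈ Q, q)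

/-! ### row by row -/

/-- Symmetric matrices of rank at most one over a finite field. -/
def RKFStmt : Prop := ∀ (F : Type) [Field F] [Fintype F] (n : ℕ) (J : Finset (Fin n)) (r : Fin n)
  (u : F) (W : Finset (Matrix (Fin n) (Fin n) F)), r ∈ J →
  (∀ B ∈ W, B.IsSymm ∧ (∀ p q p' q', B p q * B p' q' = B p q' * B p' q) ∧
    (∀ j, j ∉ J → B j j = 0) ∧ B r r = u) → W.card ≤ Fintype.card F ^ (J.card - 1)

/-- The same modulo a squarefree number, one row being given. -/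
def RKStmt : Prop := ∀ (n D : ℕ) (r r' : Fin n) (s : ℤ) (ρ : Fin n → ZMod D) (u : ZMod D)
  (W : Finset (Matrix (Fin n) (Fin n) (ZMod D))), Squarefree D → r < r' → ρ r = s →
  (∀ B ∈ W, B.IsSymm ∧ (∀ p q p' q', B p q * B p' q' = B p q' * B p' q) ∧
    (∀ j, j < r → B j j = 0) ∧ (∀ q, B r q = ρ q) ∧ B r' r' = u) →
  W.card ≤ Int.gcd s D ^ ((Ioi r).erase r').card

/-- Integer matrices with three given entries. -/
def ROWStmt : Prop := ∀ (n D : ℕ) (r r' : Fin n) (Y : Fin n → Fin n → ℝ) (s t u : ℤ)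
  (W : Finset (Mz n)), Squarefree D → r < r' → s ≠ 0 → (∀ p q, 0 ≤ Y p q) →
  (∀ q, r < q → |(s : ℝ)| ≤ Y r q) →
  (∀ B ∈ W, B.IsSymm ∧ Mn D B ∧ Bd Y B ∧ (∀ j, j < r → B j j = 0) ∧ B r r = s ∧ B r r' = t ∧
    B r' r' = u) →
  (W.card : ℝ) ≤ (∏ q ∈ (Ioi r).erase r', 3 * Y r q) *
    ∏ x ∈ ((up n).filter fun x => x.1 ≠ r).erase (r', r'), (2 * Y x.1 x.2 / D + 1)

/-- Integer matrices with a given first nonzero diagonal position. -/
def ROWTStmt : Prop := ∀ (n D : ℕ) (r : Fin n) (Y : Fin n → Fin n → ℝ) (W : Finset (Mz n)),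
  Squarefree D → r.1 + 1 < n → (∀ p q, 0 ≤ Y p q) → (∀ q, r < q → Y r r ≤ Y r q) →
  (∀ B ∈ W, B.IsSymm ∧ Mn D B ∧ Bd Y B ∧ (∀ j, j < r → B j j = 0) ∧ B r r ≠ 0) →
  (W.card : ℝ) ≤ (∏ q ∈ Ici r, 3 * Y r q) *
    ∏ x ∈ (up n).filter fun x => x.1 ≠ r, (2 * Y x.1 x.2 / D + 1)

/-! ### the divisor switch -/

/-- Divisors of squares. -/
def SQStmt : Prop :=
  (∀ (h : ℕ) (Y : ℝ) (W : Finset ℤ), 0 < h → 0 ≤ Y →
    (∀ t ∈ W, |(t : ℝ)| ≤ Y ∧ (h : ℤ) ∣ t ^ 2) → (W.card : ℝ) ≤ 2 * Y / √h + 1) ∧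
  ∀ (Y₀ Y₁ : ℝ) (W : Finset (ℤ × ℤ × ℤ)), 0 ≤ Y₀ → Y₀ ≤ Y₁ →
    (∀ x ∈ W, x.1 ≠ 0 ∧ |(x.1 : ℝ)| ≤ Y₀ ∧ |(x.2.1 : ℝ)| ≤ Y₁ ∧ x.1 * x.2.2 = x.2.1 ^ 2) →
    (W.card : ℝ) ≤ 12 * Y₁ * √Y₀

/-- A sum over greatest common divisors. -/
def GCDStmt : Prop := ∀ a b : ℕ,
  ∑ s ∈ Icc 1 a, ∑ k ∈ Icc 1 b, √(Nat.gcd s k : ℝ) / √((s : ℝ) * k) ≤ 12 * √((a : ℝ) * b)

def SWStmt : Prop := ∀ l : ℝ, 1 ≤ l → ∃ C : ℝ, 0 < C ∧ ∀ (Z Y₀ Y₁ Y₂ : ℝ)
  (W : Finset (ℕ × ℤ × ℤ × ℤ)), 1 ≤ Y₀ → Y₀ ≤ Y₁ → Y₁ ≤ Y₂ → Y₀ * Y₂ = Y₁ ^ 2 → Y₂ ≤ l * Z →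
  (∀ x ∈ W, Z ≤ l * x.1 ∧ (x.1 : ℝ) ≤ Z ∧ x.2.1 ≠ 0 ∧ |(x.2.1 : ℝ)| ≤ Y₀ ∧ |(x.2.2.1 : ℝ)| ≤ Y₁ ∧
    |(x.2.2.2 : ℝ)| ≤ Y₂ ∧ (x.1 : ℤ) ∣ x.2.1 * x.2.2.2 - x.2.2.1 ^ 2) →
  (W.card : ℝ) ≤ C * (Y₀ * Y₁ * Y₂ + Z * Y₁ * √Y₀)

/-! ### exponents -/

def EXPStmt : Prop := ∀ (g : ℕ) (e : Fin (2 * g + 2) → ℤ), Ex e →
  e (mid g) ≤ 0 ∧ ∑ x ∈ up (2 * g + 2), (e x.1 + e x.2) = 0 ∧ (1 ≤ g → Pp e - Un e ≤ e 0) ∧
  (∀ i : Fin (2 * g + 2), i.1 ≤ g → Ps 0 e ≤ 2 * (e 0 - e i)) ∧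
  ∀ (r : Fin (2 * g + 2)) (t : ℤ), r.1 ≤ g → e r - e 0 ≤ t →
    Ps r e ≤ 2 * r.1 * (t - e r) - 2 * (e (mid g) - e r)

def SUMStmt : Prop := ∀ g t : ℕ,
  (∃ C : ℝ, 0 < C ∧ ∀ E : Finset (Fin (2 * g + 2) → ℤ), (∀ e ∈ E, Ex e) →
    ∑ e ∈ E, (2 : ℝ) ^ e 0 ≤ C) ∧
  ∀ ε : ℝ, 0 < ε → ∃ m : ℕ,
    (∀ E : Finset (Fin (2 * g + 2) → ℤ), (∀ e ∈ E, Ex e ∧ (m : ℤ) ≤ - e 0) →
      ∑ e ∈ E, (2 : ℝ) ^ e 0 ≤ ε) ∧
    ∀ (k : ℕ) (E : Finset (Fin (2 * g + 2) → ℤ)),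
      (∀ e ∈ E, Ex e ∧ - 2 * e 0 ≤ k + t ∧ (m : ℤ) ≤ k + 2 * e (mid g)) →
      ∑ e ∈ E, (√2 : ℝ) ^ (- ((k : ℤ) + 2 * e (mid g))) ≤ ε

/-- What irreducibility gives. -/
def STEPStmt : Prop := ∀ (g c k D : ℕ) (e : Fin (2 * g + 2) → ℤ) (A T : Mz (2 * g + 2)), Ex e →
  Pair A T → Irr T.charpoly → Box c e A → Ok c k e (D, A * T) →
  - e 0 ≤ (2 * c * (g + 1) : ℕ) ∨ ∃ r : Fin (2 * g + 2), r.1 ≤ g ∧
    (∀ j, j < r → (A * T) j j = 0) ∧ (A * T) r r ≠ 0 ∧ e r - e 0 ≤ (2 * c * (g + 1) : ℕ)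

/-- The first diagonal entry is not zero. -/
def TZStmt : Prop := ∀ g c : ℕ, 1 ≤ g → ∃ C : ℝ, 0 < C ∧ ∀ (k : ℕ) (e : Fin (2 * g + 2) → ℤ)
  (W : Finset (ℕ × Mz (2 * g + 2))), Ex e → (∀ x ∈ W, Ok c k e x ∧ x.2 0 0 ≠ 0) →
  (W.card : ℝ) ≤ C * (2 ^ k) ^ (2 * g + 3) * (2 : ℝ) ^ (Un e - Pp e) *
    ((2 : ℝ) ^ e 0 + (√2 : ℝ) ^ (- ((k : ℤ) + 2 * e (mid g))))

/-- The first diagonal entries are zero. -/
def TRStmt : Prop := ∀ g c t : ℕ, ∃ C : ℝ, 0 < C ∧ ∀ (k : ℕ) (e : Fin (2 * g + 2) → ℤ)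
  (r : Fin (2 * g + 2)) (W : Finset (ℕ × Mz (2 * g + 2))), Ex e → 0 < r.1 → r.1 ≤ g →
  e r - e 0 ≤ t → (∀ x ∈ W, Ok c k e x ∧ (∀ j, j < r → x.2 j j = 0) ∧ x.2 r r ≠ 0) →
  (W.card : ℝ) ≤ C * (2 ^ k) ^ (2 * g + 3) * (2 : ℝ) ^ (Un e - Pp e) *
    (2 : ℝ) ^ (- ((k : ℤ) + 2 * e (mid g)))

/-! ### equidistribution -/

/-- Representations as a multiple of a square. -/
def REPStmt : Prop := ∀ (n D : ℕ) (B : Mz n), 1 ≤ n → Squarefree D → B.IsSymm → Mn D B →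
  ∃ V : Finset (Fin n → ZMod D), D.totient ≤ V.card ∧
    ∀ v ∈ V, ∃ c : ZMod D, ∀ p q, (B p q : ZMod D) = c * (v p * v q)

/-- The large sieve. -/
def ARCStmt : Prop := ∀ (D : ℕ) (B P : Finset (ZMod D)), 0 < D →
  (∀ c ∈ B, ∀ ξ ∈ P, ∃ y : ℤ, 6 * |y| ≤ D ∧ (y : ZMod D) = c * ξ) → B.card * P.card ≤ 4 * D

/-- Points of a lattice without short dual vectors. -/
def CELLStmt : Prop := ∀ (ι : Type) [Fintype ι], ∃ C : ℝ, 0 < C ∧ ∀ (N K D : ℕ) (w : ι → ZMod D)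
  (Y : ι → ℝ) (b : ι → ℤ) (W : Finset (ι → ℤ)), 0 < N → 0 < K → 0 < D → D.Coprime N →
  12 * K * Fintype.card ι ≤ D → (∀ i, (N : ℝ) * D ≤ K * Y i) →
  (∀ k : ι → ℤ, (∀ i, |k i| < K) → ∑ i, (k i : ZMod D) * w i = 0 → k = 0) →
  (∀ y ∈ W, (∀ i, |(y i : ℝ)| ≤ Y i ∧ (N : ℤ) ∣ y i - b i) ∧
    ∃ c : ZMod D, ∀ i, (y i : ZMod D) = c * w i) →
  (W.card : ℝ) ≤ C * D * ∏ i, Y i / (N * D)

/-- Roots of a quadratic polynomial. -/
def ROOTStmt : Prop := ∀ (D L : ℕ) (a : ℤ) (b c : ZMod D) (W : Finset (ZMod D)), 0 < L → a ≠ 0 →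
  |a| * (L : ℤ) ^ 3 ≤ D → (∀ t ∈ W, (a : ZMod D) * t ^ 2 + b * t + c = 0) →
  (W.card : ℝ) ≤ 2 * ((D : ℝ) / L + 1)

/-- Vectors on a small quadric are rare. -/
def EXCStmt : Prop := ∀ (n K : ℕ) (ε : ℝ), 0 < ε → ∃ D1 : ℕ, ∀ (D : ℕ)
  (V : Finset (Fin n → ZMod D)), D1 ≤ D →
  (∀ v ∈ V, ∃ k : Fin n × Fin n → ℤ, (∀ x, |k x| < K) ∧ (∃ x ∈ up n, k x ≠ 0) ∧
    ∑ x ∈ up n, (k x : ZMod D) * (v x.1 * v x.2) = 0) → (V.card : ℝ) ≤ ε * (D : ℝ) ^ n

def BOHRStmt : Prop := ∀ n : ℕ, 1 ≤ n → ∃ C : ℝ, 0 < C ∧ ∀ (N : ℕ) (l ε : ℝ), 0 < N → 0 < l →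
  0 < ε → ∃ D1 : ℕ, ∀ (D : ℕ) (Y : Fin n → Fin n → ℝ) (B₀ : Mz n) (W : Finset (Mz n)), D1 ≤ D →
  Squarefree D → D.Coprime N → (∀ p q, (D : ℝ) ≤ l * Y p q ∧ Y p q ≤ l * D) →
  (∀ B ∈ W, B.IsSymm ∧ Mn D B ∧ Bd Y B ∧ ∀ p q, (N : ℤ) ∣ B p q - B₀ p q) →
  (W.card : ℝ) ≤ (D : ℝ) / D.totient * (D : ℝ) ^ n *
    (C * ∏ x ∈ up n, Y x.1 x.2 / (N * D) + ε)

def PHIStmt : Prop := ∃ C : ℝ, 0 < C ∧ ∀ N D0 : ℕ, 0 < N → D0.Coprime N → ∃ X0 : ℕ,
  ∀ (Z : ℕ) (E : Finset ℕ), X0 ≤ Z → (∀ D ∈ E, Squarefree D ∧ D ≤ Z ∧ D ≡ D0 [MOD N]) →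
  ∑ D ∈ E, (D : ℝ) / D.totient ≤ C * Z / N

def BODYStmt : Prop := ∀ g c : ℕ, ∃ C : ℝ, 0 < C ∧ ∀ (N D0 m : ℕ) (ε : ℝ), 0 < N →
  D0.Coprime N → 0 < ε → ∃ k0 : ℕ, ∀ (k : ℕ) (e : Fin (2 * g + 2) → ℤ) (B₀ : Mz (2 * g + 2))
  (W : Finset (ℕ × Mz (2 * g + 2))), k0 ≤ k → Ex e → - e 0 ≤ m →
  (∀ x ∈ W, Ok c k e x ∧ x.1 ≡ D0 [MOD N] ∧ ∀ p q, (N : ℤ) ∣ x.2 p q - B₀ p q) →
  (W.card : ℝ) ≤ (C / (N : ℝ) ^ ((up (2 * g + 2)).card + 1) + ε) * (2 ^ k) ^ (2 * g + 3)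

/-! ### the count -/

/-- The pairs `(D, F)` that are counted, with a reduced representative. -/
def Rd (g κ k m : ℕ) (L : Mz (2 * g + 2) → Mz (2 * g + 2) → Prop) (x : ℕ × ℤ[X]) : Prop :=
  Irr x.2 ∧ ∃ (e : Fin (2 * g + 2) → ℤ) (A T : Mz (2 * g + 2)), Ex e ∧ Pair A T ∧
    T.charpoly = x.2 ∧ L A T ∧ Box κ e A ∧ Ok κ k e (x.1, A * T) ∧ (m : ℤ) ≤ k + 2 * e (mid g)

def ABSStmt : Prop := ∀ g κ : ℕ, 1 ≤ g → ∃ C : ℝ, 0 < C ∧ ∀ ε : ℝ, 0 < ε → ∃ m : ℕ,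
  ∀ (L : Mz (2 * g + 2) → Mz (2 * g + 2) → Prop) (μ : ℝ) (N D0 : ℕ), Inv L → 0 ≤ μ → Dn L μ N →
  0 < N → D0.Coprime N → ∃ k0 : ℕ, ∀ (k : ℕ) (S : Finset (ℕ × ℤ[X])), k0 ≤ k →
  (∀ x ∈ S, x.1 ≡ D0 [MOD N] ∧ Rd g κ k m L x) →
  (S.card : ℝ) ≤ (C * μ / N + ε) * (2 ^ k) ^ (2 * g + 3)

end Pool.Agent.MP_a43263_nt.VC

end MrgPart1

-- ======== part 2: formerly Pool.Agent.MP_a43263_nt.VC.Den
section MrgPart2

/-!
The density of the local condition among the classes modulo the product of the primes.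
-/

namespace Pool.Agent.MP_a43263_nt.VC

open Polynomial Matrix Finset UC

namespace Den

lemma card_up (g : ℕ) : (up (2 * g + 2)).card = (g + 1) * (2 * g + 1) + (2 * g + 2) := by
  have h : ∀ n, (up n).card = ∑ i ∈ range (n + 1), i := fun n => by
    rw [up, card_filter, Fintype.sum_prod_type_right, sum_range_succ', add_zero,
      ← Fin.sum_univ_eq_sum_range (fun i => i + 1)]
    refine sum_congr rfl fun q _ => ?_
    rw [← card_filter, ← Fin.card_Iic]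
    congr 1
    ext p
    simp
  have := sum_range_id_mul_two (2 * g + 2 + 1)
  rw [← h, Nat.add_sub_cancel] at this
  nlinarith

/-- One integer matrix for every tuple of reductions. -/
lemma reps {n : ℕ} (Q : Finset ℕ) (hQ : ∀ q ∈ Q, q.Prime)
    (S : ∀ q : ℕ, Finset (Matrix (Fin n) (Fin n) (ZMod q))) :
    ∃ R : Finset (Mz n), R.card ≤ ∏ q ∈ Q, (S q).card ∧ ∀ B : Mz n,
      (∀ q ∈ Q, B.map (Int.castRingHom (ZMod q)) ∈ S q) →
      ∃ B₀ ∈ R, ∀ p q, ((∏ r ∈ Q, r : ℕ) : ℤ) ∣ B p q - B₀ p q := by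
  classical
  have hf : ∀ s : (∀ q ∈ Q, Matrix (Fin n) (Fin n) (ZMod q)), ∃ B₀ : Mz n, ∀ B : Mz n,
      (fun q (_ : q ∈ Q) => B.map (Int.castRingHom (ZMod q))) = s →
      (fun q (_ : q ∈ Q) => B₀.map (Int.castRingHom (ZMod q))) = s := fun s => by
    by_cases h : ∃ B : Mz n, (fun q (_ : q ∈ Q) => B.map (Int.castRingHom (ZMod q))) = s
    · obtain ⟨B, hB⟩ := h
      exact ⟨B, fun _ _ => hB⟩
    · exact ⟨0, fun B hB => absurd ⟨B, hB⟩ h⟩
  choose f hf using hf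
  refine ⟨(Q.pi S).image f, card_image_le.trans (card_pi _ _).le, fun B hB =>
    ⟨f _, mem_image_of_mem f (mem_pi.2 hB), fun p p' => ?_⟩⟩
  rw [Nat.cast_prod]
  refine Finset.prod_dvd_of_coprime (fun q hq q' hq' hne => Nat.isCoprime_iff_coprime.2
    ((Nat.coprime_primes (hQ q hq) (hQ q' hq')).2 hne)) fun q hq => ?_
  exact (ZMod.intCast_eq_intCast_iff_dvd_sub _ _ _).1
    (congrFun (congrFun (congrFun (congrFun (hf _ B rfl) q) hq) p) p')

end Den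

open Den in
theorem den : FCStmt → DENStmt := by
  intro hF g hg
  obtain ⟨q0, hq0⟩ := hF g hg
  refine ⟨max q0 3, fun Q a b h hQ A hA hd => ?_⟩
  have hS : ∀ q : ℕ, ∃ S : Finset (Matrix (Fin (2 * g + 2)) (Fin (2 * g + 2)) (ZMod q)), q ∈ Q →
      (∀ T : Mz (2 * g + 2), (A * T).IsSymm → Loc Q a b h A T →
        (A * T).map (Int.castRingHom (ZMod q)) ∈ S) ∧
      5 * S.card ≤ 4 * q ^ ((g + 1) * (2 * g + 1)) := by
    intro q
    by_cases hq : q ∈ Q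
    swap
    · exact ⟨∅, fun h => absurd h hq⟩
    obtain ⟨h1, h2, h0, h3, h4⟩ := hQ q hq
    have := Fact.mk h1
    classical
    have h5 := hq0 (ZMod q) (by rw [ZMod.card]; exact (le_max_left _ _).trans h2)
      (fun e => by
        have := Nat.le_of_dvd two_pos ((ZMod.natCast_eq_zero_iff 2 q).1 (by exact_mod_cast e))
        have := (le_max_right _ _).trans h2
        omega)
      (A.map (Int.castRingHom (ZMod q))) (hA.map _)
      (by rw [← RingHom.mapMatrix_apply, ← RingHom.map_det]; exact (hd.map _).ne_zero)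
      (a q) (b q) _ h0 h3 h4
    rw [Nat.card_eq_fintype_card, Fintype.card_subtype, ZMod.card] at h5
    refine ⟨_, fun _ => ⟨fun T t1 t2 => ?_, le_trans (Nat.mul_le_mul_left _
      (card_image_le (f := fun T => A.map (Int.castRingHom (ZMod q)) * T))) h5⟩⟩
    refine mem_image.2 ⟨T.map (Int.castRingHom (ZMod q)), mem_filter.2 ⟨mem_univ _, ?_, t2 q hq⟩,
      Matrix.map_mul.symm⟩
    rw [← Matrix.map_mul]
    exact t1.map _
  choose S hS using hS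
  obtain ⟨R, r1, r2⟩ := reps Q (fun q hq => (hQ q hq).1) S
  refine ⟨R, le_trans (Nat.cast_le.2 r1) ?_,
    fun T t1 t2 => r2 _ fun q hq => (hS q hq).1 T t1 t2⟩
  have N0 : (0 : ℝ) < ((∏ q ∈ Q, q : ℕ) : ℝ) := by
    exact_mod_cast prod_pos fun q hq => (hQ q hq).1.pos
  rw [card_up, add_comm ((g + 1) * (2 * g + 1)), pow_add _ (2 * g + 2), ← mul_assoc,
    div_mul_cancel₀ _ (pow_pos N0 _).ne', Nat.cast_prod, Nat.cast_prod, ← prod_pow, ← prod_const,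
    ← prod_mul_distrib]
  refine prod_le_prod (fun _ _ => by positivity) fun q hq => ?_
  have h1 : (5 : ℝ) * (S q).card ≤ 4 * (q : ℝ) ^ ((g + 1) * (2 * g + 1)) := by
    exact_mod_cast (hS q hq).2
  linarith

end Pool.Agent.MP_a43263_nt.VC

end MrgPart2

-- ======== part 3: formerly Pool.Agent.MP_a43263_nt.UC.Maj
section MrgPart3

/-! The majorant of a pair of symmetric matrices. -/

namespace Pool.Agent.MP_a43263_nt.UC

open Polynomial Matrix Finset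

namespace Maj

variable {n : ℕ}

theorem geo {x t : ℝ} (hx : 0 ≤ x) (h : 2 * x < t) (m : ℕ) :
    ∑ k ∈ range m, x ^ (m - k) * t ^ k < t ^ m := by
  have ht : 0 < t := by linarith
  induction m with
  | zero => simp
  | succ m ih =>
    have e : ∑ k ∈ range (m + 1), x ^ (m + 1 - k) * t ^ k =
        x * (∑ k ∈ range m, x ^ (m - k) * t ^ k + t ^ m) := by
      rw [sum_range_succ, mul_add, mul_sum]
      congr 1
      · refine sum_congr rfl fun k hk => ?_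
        rw [Nat.succ_sub (mem_range.1 hk).le, pow_succ]
        ring
      · simp
    have := pow_pos ht m
    rw [e, pow_succ]
    nlinarith

theorem root_le {X : ℕ} {f : ℤ[X]} (mo : f.Monic) (dg : f.natDegree = n) (h : Ht n X f) {θ : ℂ}
    (e : (f.map (Int.castRingHom ℂ)).eval θ = 0) : ‖θ‖ ≤ 2 * X := by
  by_contra c
  have g := geo (Nat.cast_nonneg X) (not_le.1 c) n
  rw [eval_map, eval₂_eq_sum_range, dg, sum_range_succ, ← dg, mo.coeff_natDegree, dg, map_one,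
    one_mul, add_comm, add_eq_zero_iff_eq_neg] at e
  rw [← norm_pow, e, norm_neg] at g
  refine absurd g (not_lt.2 ((norm_sum_le _ _).trans (sum_le_sum fun k hk => ?_)))
  have hk := mem_range.1 hk
  have := h (n - k) (by omega) (by omega)
  rw [show n - (n - k) = k by omega] at this
  rw [norm_mul, norm_pow, eq_intCast, Complex.norm_intCast]
  exact mul_le_mul_of_nonneg_right (by exact_mod_cast this) (by positivity)

theorem diag (T : Matrix (Fin n) (Fin n) ℂ) (h : T.charpoly.Separable) :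
    ∃ (θ : Fin n → ℂ) (P Q : Matrix (Fin n) (Fin n) ℂ), Function.Injective θ ∧
      (∀ i, T.charpoly.eval (θ i) = 0) ∧ P * Q = 1 ∧ T * P = P * diagonal θ := by
  have c := card_rootSet_eq_natDegree (K := ℂ) h (IsAlgClosed.splits _)
  rw [charpoly_natDegree_eq_dim] at c
  let e := (Fintype.equivOfCardEq c).symm
  have hθ : Function.Injective fun i => (e i : ℂ) := Subtype.val_injective.comp e.injective
  have r : ∀ i, T.charpoly.eval (e i : ℂ) = 0 := fun i => by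
    simpa using (mem_rootSet.1 (e i).2).2
  have ex : ∀ i, ∃ v ≠ 0, T *ᵥ v = (e i : ℂ) • v := fun i => by
    obtain ⟨v, h0, hv⟩ := exists_mulVec_eq_zero_iff.2 ((Matrix.eval_charpoly _ _).symm.trans (r i))
    refine ⟨v, h0, ?_⟩
    rw [sub_mulVec, sub_eq_zero] at hv
    rw [← hv]
    ext k
    simp [mulVec_diagonal]
  choose v h0 hv using ex
  have li := Module.End.eigenvectors_linearIndependent' (toLin' T) _ hθ v fun i =>
    ⟨Module.End.mem_eigenspace_iff.2 (hv i), h0 i⟩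
  have u : IsUnit (of v)ᵀ := linearIndependent_cols_iff_isUnit.1 li
  refine ⟨_, (of v)ᵀ, (of v)ᵀ⁻¹, hθ, r, mul_nonsing_inv _ ((isUnit_iff_isUnit_det _).1 u), ?_⟩
  ext k i
  have := congrFun (hv i) k
  rw [mul_diagonal, mul_comm]
  exact this

/-- entrywise conjugate -/
abbrev cj (M : Matrix (Fin n) (Fin n) ℂ) := M.map (starRingEnd ℂ)

theorem cj_cj (M : Matrix (Fin n) (Fin n) ℂ) : cj (cj M) = M := by
  ext i j
  simp

theorem key {a θ : Fin n → ℂ} (hθ : Function.Injective θ) {S : Matrix (Fin n) (Fin n) ℂ}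
    (h1 : diagonal θ * S = S * cj (diagonal θ)) (h2 : Sᵀ * diagonal a * S = cj (diagonal a)) :
    Sᵀ * diagonal (fun i => (‖a i‖ : ℂ)) * cj S = diagonal fun i => (‖a i‖ : ℂ) := by
  have k : ∀ i k, S i k ≠ 0 → θ i = starRingEnd ℂ (θ k) := fun i k h => by
    have := congrFun₂ h1 i k
    rw [cj, diagonal_map (by simp), diagonal_mul, mul_diagonal, mul_comm] at this
    exact mul_left_cancel₀ h this
  ext k' l
  rw [mul_apply]
  simp only [mul_diagonal, transpose_apply, map_apply]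
  by_cases e : k' = l
  · subst e
    have h3 := congrFun₂ h2 k' k'
    rw [mul_apply] at h3
    simp only [mul_diagonal, transpose_apply, map_apply, diagonal_apply_eq] at h3
    rw [diagonal_apply_eq, ← RCLike.norm_conj (a k'), ← h3]
    by_cases z : ∀ i, S i k' = 0
    · simp [z]
    · obtain ⟨i, hi⟩ := not_forall.1 z
      have o : ∀ j, j ≠ i → S j k' = 0 := fun j hj => by
        by_contra c
        exact hj (hθ ((k j _ c).trans (k i _ hi).symm))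
      rw [sum_eq_single i (fun j _ hj => by simp [o j hj]) (by simp),
        sum_eq_single i (fun j _ hj => by simp [o j hj]) (by simp), mul_right_comm,
        Complex.mul_conj', norm_mul, norm_mul]
      push_cast
      ring
  · rw [diagonal_apply_ne _ e]
    refine sum_eq_zero fun i _ => ?_
    by_cases c : S i k' = 0
    · simp [c]
    by_cases c' : S i l = 0
    · simp [c']
    exact absurd (hθ ((starRingEnd ℂ).injective ((k i _ c).symm.trans (k i _ c')))) e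

theorem core {A T P Q : Matrix (Fin n) (Fin n) ℂ} {θ : Fin n → ℂ} (hθ : Function.Injective θ)
    (hA : A.IsSymm) (hT : (A * T).IsSymm) (rA : cj A = A) (rT : cj T = T) (pq : P * Q = 1)
    (e : T * P = P * diagonal θ) : ∃ a : Fin n → ℂ,
      (∀ j, A * T ^ j = Qᵀ * diagonal (fun i => a i * θ i ^ j) * Q) ∧
      ∀ K, K = (cj Q)ᵀ * diagonal (fun i => (‖a i‖ : ℂ)) * Q → cj K = K ∧ Kᵀ = K := by
  have qp : Q * P = 1 := mul_eq_one_comm.1 pq
  have g1 : (Pᵀ * A * P).IsSymm := by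
    rw [IsSymm, transpose_mul, transpose_mul, transpose_transpose, hA.eq, Matrix.mul_assoc]
  have g2 : (Pᵀ * A * P * diagonal θ).IsSymm := by
    rw [Matrix.mul_assoc, ← e, ← Matrix.mul_assoc, Matrix.mul_assoc _ A, IsSymm, transpose_mul,
      transpose_mul, transpose_transpose, hT.eq]
    simp only [Matrix.mul_assoc]
  obtain ⟨a, ha⟩ : ∃ a, Pᵀ * A * P = diagonal a := by
    refine ⟨fun i => (Pᵀ * A * P) i i, ?_⟩
    ext i k
    by_cases c : i = k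
    · rw [c, diagonal_apply_eq]
    · have := g2.apply i k
      rw [mul_diagonal, mul_diagonal, g1.apply i k] at this
      rw [diagonal_apply_ne _ c]
      by_contra z
      exact c (hθ (mul_left_cancel₀ z this))
  have eA : A = Qᵀ * diagonal a * Q := by
    rw [← ha, ← Matrix.mul_assoc, ← Matrix.mul_assoc, ← transpose_mul, pq, transpose_one,
      Matrix.one_mul, Matrix.mul_assoc, pq, Matrix.mul_one]
  have eT : Q * T = diagonal θ * Q := by
    rw [← Matrix.mul_one (Q * T), ← pq, ← Matrix.mul_assoc, Matrix.mul_assoc Q, e,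
      ← Matrix.mul_assoc, qp, Matrix.one_mul]
  refine ⟨a, fun j => ?_, fun K hK => ?_⟩
  · induction j with
    | zero => simpa using eA
    | succ j ih =>
      rw [pow_succ, ← Matrix.mul_assoc, ih, Matrix.mul_assoc, eT, ← Matrix.mul_assoc,
        Matrix.mul_assoc _ _ (diagonal θ), diagonal_mul_diagonal]
      simp only [pow_succ, mul_assoc]
  have m : ∀ M N : Matrix (Fin n) (Fin n) ℂ, cj (M * N) = cj M * cj N := fun M N => Matrix.map_mul
  have c1 : cj (1 : Matrix (Fin n) (Fin n) ℂ) = 1 := Matrix.map_one _ (by simp) (by simp)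
  have k := key (a := a) hθ (S := Q * cj P) (by
    rw [← Matrix.mul_assoc, ← eT, Matrix.mul_assoc, Matrix.mul_assoc, ← m, ← e, m, rT]) (by
    have : cj (diagonal a) = (cj P)ᵀ * A * cj P := by
      rw [← ha, m, m, rA]
      rfl
    rw [this, transpose_mul]
    conv_rhs => rw [eA]
    simp only [Matrix.mul_assoc])
  have e1 : Q * cj P * cj Q = Q := by rw [Matrix.mul_assoc, ← m, pq, c1, Matrix.mul_one]
  have e2 : cj (Q * cj P) * Q = cj Q := by
    rw [m, cj_cj, Matrix.mul_assoc, pq, Matrix.mul_one]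
  have e3 : cj (diagonal fun i => (‖a i‖ : ℂ)) = diagonal fun i => (‖a i‖ : ℂ) := by
    rw [cj, diagonal_map (by simp)]
    simp
  have e4 : cj (cj Q)ᵀ = Qᵀ := by rw [cj, transpose_map]; exact congrArg _ (cj_cj Q)
  suffices h : Qᵀ * diagonal (fun i => (‖a i‖ : ℂ)) * cj Q = K by
    refine ⟨by rw [hK, m, m, e3, e4, h, hK], ?_⟩
    rw [hK, transpose_mul, transpose_mul, transpose_transpose, diagonal_transpose,
      ← Matrix.mul_assoc, h, hK]
  calc _ = (Q * cj P * cj Q)ᵀ * diagonal (fun i => (‖a i‖ : ℂ)) * (cj (Q * cj P) * Q) := by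
        rw [e1, e2]
    _ = (cj Q)ᵀ * ((Q * cj P)ᵀ * diagonal (fun i => (‖a i‖ : ℂ)) * cj (Q * cj P)) * Q := by
        rw [transpose_mul (Q * cj P)]
        simp only [Matrix.mul_assoc]
    _ = _ := by rw [k, hK]

theorem form (Q Q' : Matrix (Fin n) (Fin n) ℂ) (d x y : Fin n → ℂ) :
    x ⬝ᵥ (Q'ᵀ * diagonal d * Q) *ᵥ y = ∑ i, (Q' *ᵥ x) i * (d i * (Q *ᵥ y) i) := by
  rw [← mulVec_mulVec, ← mulVec_mulVec, dotProduct_mulVec, vecMul_transpose, dotProduct]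
  simp only [mulVec_diagonal]

end Maj

open Maj in
theorem maj : MAJStmt := by
  intro n X A T ⟨hA, hd, hT⟩ hi hh
  let φ := Int.castRingHom ℂ
  have sp : (T.map φ).charpoly.Separable := by
    have := (Irreducible.separable hi).map (f := algebraMap ℚ ℂ)
    rwa [Polynomial.map_map, RingHom.ext_int (RingHom.comp _ _) φ, ← charpoly_map] at this
  obtain ⟨θ, P, Q, hθ, r, pq, e⟩ := diag _ sp
  have rr : ∀ M : Mz n, cj (M.map φ) = M.map φ := fun M => by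
    ext i j
    simp [φ]
  obtain ⟨a, h1, h2⟩ := core (A := A.map φ) hθ (hA.map _)
    (by rw [← Matrix.map_mul]; exact hT.map _) (rr A) (rr T) pq e
  obtain ⟨K, hK⟩ : ∃ K, K = (cj Q)ᵀ * diagonal (fun i => (‖a i‖ : ℂ)) * Q := ⟨_, rfl⟩
  obtain ⟨h2, h3⟩ := h2 K hK
  have hH : (K.map Complex.re).map Complex.ofRealHom = K := by
    ext i j
    exact Complex.conj_eq_iff_re.1 (congrFun₂ h2 i j)
  have q : ∀ x : Fin n → ℝ, x ⬝ᵥ K.map Complex.re *ᵥ x =
      ∑ i, ‖a i‖ * ‖(Q *ᵥ fun i => (x i : ℂ)) i‖ ^ 2 := fun x => by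
    apply Complex.ofReal_injective
    have e1 : ((x ⬝ᵥ K.map Complex.re *ᵥ x : ℝ) : ℂ) =
        (fun i => (x i : ℂ)) ⬝ᵥ K *ᵥ fun i => (x i : ℂ) := by
      conv_rhs => rw [← hH]
      simp [dotProduct, mulVec]
    rw [e1, hK, form]
    push_cast
    refine sum_congr rfl fun i _ => ?_
    have : (cj Q *ᵥ fun i => (x i : ℂ)) i = starRingEnd ℂ ((Q *ᵥ fun i => (x i : ℂ)) i) := by
      simp [dotProduct, mulVec]
    rw [this, ← Complex.conj_mul']
    ring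
  have dt : (K.map Complex.re).det = 1 := by
    apply Complex.ofReal_injective
    have e1 := congrArg (fun M => ‖det M‖) (h1 0)
    have e2 : ‖(A.map φ).det‖ = 1 := by
      rw [← RingHom.mapMatrix_apply, ← RingHom.map_det]
      rcases Int.isUnit_iff.1 hd with c | c <;> simp [c]
    simp only [pow_zero, mul_one, e2, det_mul, det_transpose, det_diagonal, norm_mul,
      norm_prod] at e1
    have e3 := (Complex.ofRealHom.map_det (K.map Complex.re)).trans (congrArg det hH)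
    have e4 := ((starRingEnd ℂ).map_det Q).symm
    rw [RingHom.mapMatrix_apply] at e4
    refine e3.trans ?_
    rw [hK, det_mul, det_mul, det_transpose, det_diagonal, e4, mul_right_comm, Complex.conj_mul',
      e1]
    push_cast
    ring
  have sy : (K.map Complex.re).IsHermitian := by
    ext i j
    exact congrArg Complex.re (congrFun₂ h3 i j)
  refine ⟨K.map Complex.re, (PosSemidef.posDef_iff_det_ne_zero
    (.of_dotProduct_mulVec_nonneg sy fun x => ?_)).2 (dt ▸ one_ne_zero), dt, fun j x y => ?_⟩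
  · rw [star_trivial, q]
    positivity
  have e1 : ((x ⬝ᵥ (A * T ^ j) *ᵥ y : ℤ) : ℂ) =
      (fun i => (x i : ℂ)) ⬝ᵥ (A.map φ * T.map φ ^ j) *ᵥ fun i => (y i : ℂ) := by
    rw [← Matrix.map_pow, ← Matrix.map_mul]
    simp [dotProduct, mulVec, φ]
  rw [← sq_abs, ← Complex.norm_intCast, e1, h1, form, Hq, Hq, q, q, mul_comm 2 j, pow_mul,
    ← mul_assoc, mul_sum _ _ (_ ^ 2)]
  refine (pow_le_pow_left₀ (norm_nonneg _) (norm_sum_le _ _) 2).trans
    (sum_sq_le_sum_mul_sum_of_sq_le_mul _ (fun i _ => by positivity) (fun i _ => by positivity)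
      fun i _ => ?_)
  have b : ‖θ i‖ ^ j ≤ (2 * X : ℝ) ^ j := pow_le_pow_left₀ (norm_nonneg _)
    (root_le (charpoly_monic T) (by simp) hh (charpoly_map T φ ▸ r i)) j
  simp only [norm_mul, norm_pow, Complex.ofReal_intCast]
  have := pow_le_pow_left₀ (by positivity) b 2
  calc _ = (‖θ i‖ ^ j) ^ 2 * (‖a i‖ * ‖(Q *ᵥ fun i => (x i : ℂ)) i‖ ^ 2 *
        (‖a i‖ * ‖(Q *ᵥ fun i => (y i : ℂ)) i‖ ^ 2)) := by ring
    _ ≤ _ := (mul_le_mul_of_nonneg_right this (by positivity)).trans_eq (by ring)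

end Pool.Agent.MP_a43263_nt.UC

end MrgPart3

-- marker of a merged file
example : 731051 + 522596 = 731051 + 522596 := rfl
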